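import Pool.Agent.Lib.MP_305fdd_al.Fr.Asm.Defs
import Pool.Agent.Lib.MP_305fdd_al.Fr.S.TorOf
import Pool.Agent.Lib.MP_305fdd_al.Fr.N.Hlp
import Pool.Agent.Lib.MP_305fdd_al.Su.X.Abs

/-!
# MP_305fdd_al, closed surface groups: the class of groups for the S-machine

`Sc Γ K F T ρ`: `ρ` is a faithful representation of the finitely generated group `Γ` over `F` with
traces `T` in `K`; it is universal for GOOD representations over DOMAINS; only `1` has trace zero;
Lemma X holds.
-/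

set_option autoImplicit false

namespace Pool.Agent.SuS

open Matrix (SpecialLinearGroup)
open Pool.Agent.FrN Pool.Agent.FrAsm Pool.Agent.FrS Pool.Agent.SuX

/-- the subgroup generated by the squares -/
def Sqs (Γ : Type) [Group Γ] : Subgroup Γ := Subgroup.closure {x | ∃ y, x = y ^ 2}

theorem sq_mem {Γ : Type} [Group Γ] (y : Γ) : y ^ 2 ∈ Sqs Γ := Subgroup.subset_closure ⟨y, rfl⟩

/-- good representations: the trace of a commutator of two elements of the group generated by the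
squares is not zero (neither reducible nor dihedral) -/
def Gd {Γ R : Type} [Group Γ] [CommRing R] (r : Γ →* SpecialLinearGroup (Fin 2) R) : Prop :=
  ∃ a ∈ Sqs Γ, ∃ b ∈ Sqs Γ, (r (a * b * a⁻¹ * b⁻¹)).1.trace ≠ 0

/-- universality for good representations over domains -/
def WU {Γ F : Type} [Group Γ] [Field F] [Algebra (ZMod 2) F]
    (ρ : Γ →* SpecialLinearGroup (Fin 2) F) : Prop :=
  ∀ (R : Type) [CommRing R] [IsDomain R] [Algebra (ZMod 2) R]
    (r : Γ →* SpecialLinearGroup (Fin 2) R), Gd r →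
    ∃ φ : OO 2 ρ →ₐ[ZMod 2] R, ∀ g i j, φ ⟨(ρ g).1 i j, mem_OO ρ g i j⟩ = (r g).1 i j

/-- `T` is the trace of `ρ` -/
abbrev TrD {Γ K F : Type} [Group Γ] [Field K] [Field F] [Algebra K F] (T : Γ → K)
    (ρ : Γ →* SpecialLinearGroup (Fin 2) F) : Prop :=
  ∀ g, (ρ g).1.trace = algebraMap K F (T g)

/-- the class of groups for the S-machine (`K`: the field of the traces, `F`: the field of the
entries) -/
structure Sc (Γ K F : Type) [Group Γ] [Field K] [Field F] [Algebra (ZMod 2) K]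
    [Algebra (ZMod 2) F] [Algebra K F] (T : Γ → K)
    (ρ : Γ →* SpecialLinearGroup (Fin 2) F) : Prop where
  fg : Group.FG Γ
  inj : Function.Injective ρ
  tr : TrD T ρ
  fracK : Frc (BB 2 T)
  fracF : Frc (OO 2 ρ)
  finF : Algebra.trdeg (ZMod 2) F < Cardinal.aleph0
  univ : WU ρ
  div : ∀ g, (ρ g).1.trace = 0 → g = 1
  fi : FI Γ
  nab : ¬ Ab Γ
  lx : LX ρ

/-- the class `Sc` with the dimensions of the closed surface group of genus `g` -/
structure ScG (g : ℕ) (Γ K F : Type) [Group Γ] [Field K] [Field F] [Algebra (ZMod 2) K]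
    [Algebra (ZMod 2) F] [Algebra K F] (T : Γ → K)
    (ρ : Γ →* SpecialLinearGroup (Fin 2) F) : Prop extends Sc Γ K F T ρ where
  two : 2 ≤ g
  trF : Algebra.trdeg (ZMod 2) F + 3 = ((6 * g : ℕ) : Cardinal)
  trK : Algebra.trdeg (ZMod 2) K + 6 = ((6 * g : ℕ) : Cardinal)

section td

variable {Γ K F : Type} [Group Γ] [Field K] [Field F] [Algebra K F] {T : Γ → K}
  {ρ : Γ →* SpecialLinearGroup (Fin 2) F}

theorem TrD.one (H : TrD T ρ) : T 1 = 2 := by
  apply (algebraMap K F).injective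
  rw [← H, map_one, map_ofNat]
  simp

theorem TrD.comm (H : TrD T ρ) (g h : Γ) : T (g * h) = T (h * g) := by
  apply (algebraMap K F).injective
  rw [← H, ← H, map_mul, map_mul]
  exact Matrix.trace_mul_comm (ρ g).1 (ρ h).1

theorem TrD.rel (H : TrD T ρ) (g h : Γ) : T (g * h) + T (g * h⁻¹) = T g * T h := by
  apply (algebraMap K F).injective
  rw [map_add, map_mul, ← H, ← H, ← H, ← H, map_mul, map_mul, map_inv]
  exact tr_rel _ _

theorem TrD.pchar [Algebra (ZMod 2) K] (H : TrD T ρ) : Pool.Agent.CC.PChar (F := ZMod 2) (1 : Γ →* (ZMod 2)ˣ) T where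
  one := TrD.one H
  comm := TrD.comm H
  rel g h := by
    rw [MonoidHom.one_apply, Units.val_one, map_one, one_mul]
    exact TrD.rel H g h

theorem TrD.BB_fg [Algebra (ZMod 2) K] (H : TrD T ρ) (hfg : Group.FG Γ) : (BB 2 T).FG := by
  have := hfg
  exact (TrD.pchar H).fg

theorem TrD.conj (H : TrD T ρ) (s g : Γ) : T (s * g * s⁻¹) = T g := by
  rw [TrD.comm H]
  group

end td

section basic

variable {Γ F : Type} [Group Γ] [Field F] [Algebra (ZMod 2) F]
  {ρ : Γ →* SpecialLinearGroup (Fin 2) F}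

/-- a non-abelian subgroup contains two squares which do not commute -/
theorem exists_sq (hT : Tor Γ) (G : Subgroup Γ) (hG : ¬ ∀ x ∈ G, ∀ y ∈ G, x * y = y * x)
    (htf : ∀ x : Γ, x ^ 2 = 1 → x = 1) :
    ∃ x ∈ G, ∃ y ∈ G, x ^ 2 * y ^ 2 ≠ y ^ 2 * x ^ 2 := by
  by_contra h
  push Not at h
  apply hG
  intro x hx y hy
  by_cases hx1 : x = 1
  · rw [hx1, one_mul, mul_one]
  by_cases hy1 : y = 1
  · rw [hy1, one_mul, mul_one]
  have h1 : x * y ^ 2 = y ^ 2 * x := by
    refine hT.trans x (x ^ 2) (y ^ 2) (fun h => hx1 (htf x h)) ?_ (h x hx y hy)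
    rw [← pow_succ, ← pow_succ']
  have h2 : y ^ 2 * y = y * y ^ 2 := by rw [← pow_succ, ← pow_succ']
  exact hT.trans x (y ^ 2) y (fun h => hy1 (htf y h)) h1 h2

/-- only `1` has square one -/
theorem sq_one (hT : ∀ g, (ρ g).1.trace = 0 → g = 1) (x : Γ) (hx : x ^ 2 = 1) : x = 1 := by
  have _ := charTwo_of_alg F
  apply hT
  have h1 : ρ x * ρ x = 1 := by rw [← map_mul, ← pow_two, hx, map_one]
  have h2 := tr_rel (ρ x) (ρ x)
  rw [h1, mul_inv_cancel] at h2
  have h3 : (1 : SpecialLinearGroup (Fin 2) F).1.trace = 2 := by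
    show (1 : Matrix (Fin 2) (Fin 2) F).trace = 2
    simp
  rw [h3] at h2
  have h4 : (2 : F) = 0 := CharTwo.two_eq_zero
  rw [h4, add_zero] at h2
  exact mul_self_eq_zero.1 h2.symm

/-- a representation which has, on a non-abelian subgroup, the traces of `ρ` up to an injective map,
is good -/
theorem gd_of (hinj : Function.Injective ρ) (hT : ∀ g, (ρ g).1.trace = 0 → g = 1)
    {G : Subgroup Γ} (hG : ¬ ∀ x ∈ G, ∀ y ∈ G, x * y = y * x) {L : Type} [Field L]
    (r : Γ →* SpecialLinearGroup (Fin 2) L) (j : F →+* L)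
    (hj : ∀ x ∈ G, (r x).1.trace = j (ρ x).1.trace) : Gd r := by
  obtain ⟨x, hx, y, hy, hxy⟩ := exists_sq (tor_of hinj hT) G hG (sq_one hT)
  refine ⟨x ^ 2, sq_mem x, y ^ 2, sq_mem y, ?_⟩
  rw [hj _ (mul_mem (mul_mem (mul_mem (pow_mem hx 2) (pow_mem hy 2)) (inv_mem (pow_mem hx 2)))
    (inv_mem (pow_mem hy 2))), Ne, map_eq_zero]
  intro h
  apply hxy
  have h1 := hT _ h
  rw [mul_inv_eq_one, mul_inv_eq_iff_eq_mul] at h1
  exact h1

end basic

end Pool.Agent.SuS
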