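import Pool.Agent.Lib.MP_305fdd_al.Su.S.Ell

/-!
# MP_305fdd_al, closed surface groups, S-machine: NSG

The theorems of `Fr/S/NSG` with the classes `HB`, `Blk` replaced by `TrD`, `Sc`.

* `nsg_gen`: a minimal splitting, `y` in the ring of the traces of the vertex groups such that every
  semi-good valuation which is zero at `y` is not negative on the cyclic edge groups: then the
  localised ring of the traces of the vertex groups has no semi-good valuation.
* `nsg`: `y` the product of safe elements.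
* `nsg_tr`: `y` the product of the traces of generators of the cyclic edge groups.
-/

set_option autoImplicit false
set_option linter.unusedSectionVars false

namespace Pool.Agent.SuS

open Matrix (SpecialLinearGroup)
open Pool.Agent.FrN Pool.Agent.FrAsm Pool.Agent.F2Ch Pool.Agent.FrS Pool.Agent.SuX

section

variable {Γ K F : Type} [Group Γ] [Field K] [Field F] [Algebra (ZMod 2) K]
  [Algebra (ZMod 2) F] [Algebra K F] {T : Γ → K} {ρ : Γ →* SpecialLinearGroup (Fin 2) F}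
  {x : K → ℝ}

theorem trace_pow (H : TrD T ρ) (w : Γ) (m : ℕ) :
    T (w ^ m) = Polynomial.aeval (T w) (Polynomial.dickson 1 (1 : ZMod 2) m) := by
  induction m using Nat.twoStepInduction with
  | zero =>
    rw [pow_zero, H.one, Polynomial.dickson_zero]
    norm_num
    exact (map_ofNat (Polynomial.aeval (T w)) 2).symm
  | one => rw [pow_one, Polynomial.dickson_one, Polynomial.aeval_X]
  | more n h1 h2 =>
    rw [Polynomial.dickson_add_two, map_one, one_mul, map_sub, map_mul, Polynomial.aeval_X, ← h1,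
      ← h2]
    have h3 := H.rel (w ^ (n + 1)) w
    have h4 : w ^ (n + 1) * w = w ^ (n + 2) := (pow_succ w (n + 1)).symm
    have h5 : w ^ (n + 1) * w⁻¹ = w ^ n := by rw [pow_succ, mul_inv_cancel_right]
    rw [h4, h5] at h3
    linear_combination h3

theorem T_conj (H : TrD T ρ) (s g : Γ) : T (s * g * s⁻¹) = T g := by
  rw [H.comm]
  group

theorem zpowers_nonneg (H : TrD T ρ) (hx : IsV x) {z : Γ} (hz : 0 ≤ x (T z)) {c : Γ}
    (hc : c ∈ Subgroup.zpowers z) : 0 ≤ x (T c) := by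
  refine closure_nonneg H hx (G := Subgroup.zpowers z) (X := {z}) ?_ ?_ ?_
    (by rwa [← Subgroup.zpowers_eq_closure])
  · rintro a ha b hb
    obtain ⟨m, rfl⟩ := Subgroup.mem_zpowers_iff.1 ha
    obtain ⟨n, rfl⟩ := Subgroup.mem_zpowers_iff.1 hb
    rw [← zpow_add, ← zpow_add, add_comm]
  · rintro a rfl
    exact Subgroup.mem_zpowers a
  · rintro a rfl
    exact hz

theorem rl_nonneg (H : TrD T ρ) (hx : IsV x) {S : GG Γ} {e : S.E} {w : Γ} {m : ℕ}
    (h : RL S e w m) (hw : 0 ≤ x (T w)) : ∀ c ∈ S.C e, 0 ≤ x (T c) := by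
  have hm : 0 ≤ x (T (w ^ m)) :=
    zpowers_nonneg H hx hw (Subgroup.npow_mem_zpowers w m)
  intro c hc
  rcases h.2.2 with ⟨_, _, h1⟩ | ⟨_, _, h1⟩
  · rw [h1] at hc
    refine zpowers_nonneg H hx ?_ hc
    rw [T_conj H]
    exact hm
  · rw [h1] at hc
    exact zpowers_nonneg H hx hm hc

/-- if the safe element of a cyclic edge has value zero, then the edge group has non-negative values -/
theorem safe_nonneg (H : TrD T ρ) (hx : IsV x) {S : GG Γ} {e : S.E} {f : K}
    (hf : SafeEl T S e f) (hfx : x f = 0) : ∀ c ∈ S.C e, 0 ≤ x (T c) := by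
  cases hf with
  | tr z hz h =>
    intro c hc
    rw [hz] at hc
    exact zpowers_nonneg H hx hfx.ge hc
  | ev w m h hm => exact rl_nonneg H hx h hfx.ge
  | od w m h hm P hP =>
    refine rl_nonneg H hx h ?_
    by_contra hlt
    push Not at hlt
    have hm2 : 2 ≤ m := h.1
    obtain ⟨n, rfl⟩ : ∃ n, m = n + 1 := ⟨m - 1, by omega⟩
    obtain ⟨h1, h2⟩ := pow_neg H hx hlt n
    have h3 := trace_pow H w (n + 1)
    rw [← hP, map_mul, map_pow, Polynomial.aeval_X] at h3
    have h4 : Polynomial.aeval (T w) P ≠ 0 := by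
      intro h0
      rw [h0] at h3
      apply h1
      rw [h3]
      ring
    have h5 : T w ≠ 0 := by
      intro h0
      rw [h0, hx.zero] at hlt
      exact lt_irrefl _ hlt
    rw [h3, hx.mul _ _ (pow_ne_zero 2 h4) h5, FrP.V_pow hx h4, hfx, mul_zero, zero_add] at h2
    have h6 : (2 : ℝ) ≤ ((n + 1 : ℕ) : ℝ) := by exact_mod_cast hm2
    nlinarith

theorem T_ne (H : Sc Γ K F T ρ) {g : Γ} (hg : g ≠ 1) : T g ≠ 0 := by
  intro h
  refine hg (H.div g ?_)
  rw [H.tr, h, map_zero]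

theorem safeEl_ne (H : Sc Γ K F T ρ) {S : GG Γ} (hS : S.Adm) {e : S.E} {f : K}
    (h : SafeEl T S e f) : f ≠ 0 := by
  cases h with
  | tr z hz _ =>
    refine T_ne H fun h => hS.ne e ?_
    rw [hz, h, Subgroup.zpowers_one_eq_bot]
  | ev w m h _ =>
    refine T_ne H fun h1 => h.ne hS ?_
    rw [h1, one_pow]
  | od w m h _ P hP =>
    intro h1
    refine T_ne H (h.ne hS) ?_
    rw [trace_pow H.tr, ← hP, map_mul, map_pow, h1, zero_pow two_ne_zero, zero_mul]

theorem safeProd_ne (H : Sc Γ K F T ρ) {S : GG Γ} (hS : S.Adm) {y : K}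
    (h : SafeProd T S y) : y ≠ 0 := by
  obtain ⟨f, h1, h2, rfl⟩ := h
  refine Finset.prod_ne_zero_iff.mpr fun e _ => ?_
  by_cases he : Cyc S e
  · exact safeEl_ne H hS (h1 e he)
  · rw [h2 e he]
    exact one_ne_zero

theorem er_univ (H : Sc Γ K F T ρ) : er (Set.univ : Set F) ≠ ⊤ := by
  obtain ⟨n, hn⟩ := Cardinal.lt_aleph0.1 H.finF
  have h1 : er (Set.univ : Set F) ≤ (n : ℕ∞) := by
    rw [er_le_iff]
    intro I _ hI
    have h2 := AlgebraicIndependent.lift_cardinalMk_le_trdeg (R := ZMod 2) (A := F)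
      (x := fun i : I => (i : F)) hI
    rw [hn, Cardinal.lift_id, Cardinal.lift_natCast] at h2
    rw [Set.encard, ENat.card]
    exact (Cardinal.toENat_le_natCast).2 h2
  exact ne_top_of_le_ne_top (ENat.natCast_ne_top _) h1

/-- CASE A: all edge groups have non-negative values. -/
theorem nsg_A (H : Sc Γ K F T ρ) {S : GG Γ}
    (hS : Smin ρ S) (hx : IsV x) (hle : ∀ z ∈ BV T S, z ≠ 0 → x z ≤ 0)
    (hel : ∀ e, ∀ c ∈ S.C e, 0 ≤ x (T c)) {v : S.V} {g : Γ} (hg : g ∈ S.G v)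
    (hneg : x (T g) < 0) : False := by
  have hna : S.NA v := by
    by_contra hv
    exact absurd (ab_vertex H hS.1 hx hel hv hg) (not_le.2 hneg)
  have hT : ∀ g, tr ρ g = 0 → g = 1 := fun g hg => H.div g hg
  have hsub : Algebra.adjoin (ZMod 2) (T '' (S.G v : Set Γ)) ≤ BV T S :=
    Algebra.adjoin_mono (Set.image_mono fun z hz => ⟨v, hz⟩)
  have hout : FrV.Out ρ (S.G v) (S.inc v) := by
    refine FrV.p_V Γ K F (S.E × Bool) T ρ (S.G v) (S.inc v) x (fun g _ => H.tr g) ?_ (hS.1.fgV v)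
      (fun h => hna h) (S.inc_le v) (GG.inc_fg hS.1.fgE v) (GG.inc_cm hS.1.ab v) hx
      (fun z hz hz0 => hle z (hsub hz) hz0) ⟨T g, Algebra.subset_adjoin ⟨g, hg, rfl⟩, hneg.ne⟩ ?_
    · intro g _ h0
      apply hT g
      unfold tr
      rw [H.tr, h0, map_zero]
    · rintro ⟨e, p⟩ c hc
      cases p with
      | true =>
        by_cases h : S.b e = v
        · rw [GG.inc_true h] at hc
          have hc' : S.s e * c * (S.s e)⁻¹ ∈ S.C e := hc
          have h1 := hel e _ hc'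
          rwa [T_conj H.tr] at h1
        · rw [GG.inc_true' h] at hc
          rw [Subgroup.mem_bot.1 hc]
          exact one_nonneg H.tr hx
      | false =>
        by_cases h : S.a e = v
        · rw [GG.inc_false h] at hc
          exact hel e c hc
        · rw [GG.inc_false' h] at hc
          rw [Subgroup.mem_bot.1 hc]
          exact one_nonneg H.tr hx
  obtain ⟨S', hS', hlt⟩ := step H.wv hT (er_univ H) H.fi hS.1 hna hout
  rcases hS.2 S' hS' with h | ⟨h, _⟩
  · exact absurd hlt (not_lt.2 h.le)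
  · exact absurd hlt (not_lt.2 h.le)

/-- NSG for a valuation of the trace field. -/
theorem nsg_K (H : Sc Γ K F T ρ) {S : GG Γ}
    (hS : Smin ρ S) (hx : IsV x) (hle : ∀ z ∈ BV T S, z ≠ 0 → x z ≤ 0)
    (hcyc : ∀ e, Cyc S e → ∀ c ∈ S.C e, 0 ≤ x (T c)) {v : S.V} {g : Γ} (hg : g ∈ S.G v)
    (hneg : x (T g) < 0) : False := by
  by_cases hel : ∀ e, ∀ c ∈ S.C e, 0 ≤ x (T c)
  · exact nsg_A H hS hx hle hel hg hneg
  · push Not at hel
    obtain ⟨e, c, hc, hlt⟩ := hel
    have hfg := H.fg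
    obtain ⟨y, hy, hyx⟩ := exists_ext_frc (K₀ := K) (FrRoq.OO_fg ρ hfg) H.fracF hx
    have hyT : ∀ g, y (tr ρ g) = x (T g) := by
      intro g
      unfold tr
      rw [H.tr, hyx]
    have hnc : ∃ a z : Γ, a * z ≠ z * a := by
      by_contra hcon
      push Not at hcon
      exact H.nab hcon
    have htr : ∀ g, FrR.tr (ρ g) = tr ρ g := fun g => (Matrix.trace_fin_two (ρ g).1).symm
    have h := case_b H.lx H.fg H.fracF H.inj hnc H.div hS.1 ⟨y, hy⟩
      (fun v g hg _ => by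
        show y (FrR.tr (ρ g)) ≤ 0
        rw [htr, hyT]
        by_cases h0 : T g = 0
        · rw [h0, hx.zero]
        · exact hle _ (Algebra.subset_adjoin ⟨g, ⟨v, hg⟩, rfl⟩) h0)
      (fun e he c hc => by
        show 0 ≤ y (FrR.tr (ρ c))
        rw [htr, hyT]
        exact hcyc e he c hc) e c hc
    have h' : 0 ≤ y (FrR.tr (ρ c)) := h
    rw [htr, hyT] at h'
    exact absurd hlt (not_lt.2 h')

/-- NSG: there is no semi-good valuation on the localised ring of the traces of the vertex groups of a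
minimal splitting. -/
theorem nsg_gen (H : Sc Γ K F T ρ) {S : GG Γ} (hS : Smin ρ S) {y : K} (hyB : y ∈ BV T S)
    (hy0 : y ≠ 0)
    (hsafe : ∀ x : K → ℝ, IsV x → (∀ z ∈ BV T S, z ≠ 0 → x z ≤ 0) → x y = 0 →
      ∀ e, Cyc S e → ∀ c ∈ S.C e, 0 ≤ x (T c)) :
    ¬ ∃ x : KV T S → ℝ, IsV x ∧ Triv (ZMod 2) x ∧ (∃ z, x z ≠ 0) ∧
      ∀ z ∈ BVy T S y, z ≠ 0 → x z ≤ 0 := by
  rintro ⟨x₀, hx₀, ht₀, ⟨z, hz⟩, hle₀⟩
  have hK := H.tr.BB_fg H.fg
  obtain ⟨x, hx, hxx⟩ := exists_ext_frc (K₀ := KV T S) (F := K) hK H.fracK hx₀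
  have h1 : BV T S ≤ (KV T S).toSubalgebra := IntermediateField.algebra_adjoin_le_adjoin _ _
  have hle : ∀ z ∈ ly (BV T S) y, z ≠ 0 → x z ≤ 0 := by
    intro z hz hz0
    have h2 : z ∈ (KV T S).toSubalgebra := ly_le_KV hyB hz
    have h3 := hle₀ ⟨z, h2⟩ hz (fun h => hz0 (congrArg Subtype.val h))
    have h4 := hxx ⟨z, h2⟩
    change x z = _ at h4
    rw [h4]
    exact h3
  have hle' : ∀ z ∈ BV T S, z ≠ 0 → x z ≤ 0 := fun z hz => hle z (le_ly _ _ hz)
  have hyv : x y = 0 := by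
    have h2 := hle y (le_ly _ _ hyB) hy0
    have h3 := hle y⁻¹ (Algebra.subset_adjoin (Set.mem_insert _ _)) (inv_ne_zero hy0)
    rw [FrP.V_inv hx hy0] at h3
    linarith
  have hcyc := hsafe x hx hle' hyv
  -- some trace has a negative value
  have hneg : ∃ v, ∃ g ∈ S.G v, x (T g) < 0 := by
    by_contra hcon
    push Not at hcon
    have h2 : ∀ a ∈ BV T S, a = 0 ∨ 0 ≤ x a := by
      refine FrV.nonneg_adjoin hx (FrV.triv_two hx) _ ?_
      rintro _ ⟨g, ⟨v, hg⟩, rfl⟩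
      exact Or.inr (hcon v g hg)
    have h3 : ∀ a ∈ BV T S, x a = 0 := by
      intro a ha
      by_cases h0 : a = 0
      · rw [h0, hx.zero]
      · exact le_antisymm (hle' a ha h0) ((h2 a ha).resolve_left h0)
    obtain ⟨r, hr, s, hs, hrs⟩ := IntermediateField.mem_adjoin_iff_div.mp z.2
    apply hz
    rw [← hxx z]
    change x z.1 = 0
    rw [hrs]
    by_cases h0 : s = 0
    · rw [h0, div_zero, hx.zero]
    by_cases h0' : r = 0
    · rw [h0', zero_div, hx.zero]
    rw [div_eq_mul_inv, hx.mul _ _ h0' (inv_ne_zero h0), FrP.V_inv hx h0, h3 r hr, h3 s hs]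
    simp
  obtain ⟨v, g, hg, hlt⟩ := hneg
  exact nsg_K H hS hx hle' hcyc hg hlt

/-- values of the factors of a product of value zero -/
theorem prod_zero {ι : Type} [Fintype ι] (hx : IsV x) {B : Subalgebra (ZMod 2) K}
    (hle : ∀ z ∈ B, z ≠ 0 → x z ≤ 0) (f : ι → K) (hf : ∀ e, f e ∈ B) (hf0 : ∀ e, f e ≠ 0)
    (h : x (∏ e, f e) = 0) (e : ι) : x (f e) = 0 := by
  have hfe : ∀ e, x (f e) ≤ 0 := fun e => hle _ (hf e) (hf0 e)
  have hsum : ∑ e, x (f e) = 0 := by
    rw [← FrP.V_prod hx Finset.univ f (fun e _ => hf0 e)]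
    exact h
  exact (Finset.sum_eq_zero_iff_of_nonpos (fun i _ => hfe i)).1 hsum e (Finset.mem_univ e)

/-- NSG for the product of safe elements -/
theorem nsg (H : Sc Γ K F T ρ) {S : GG Γ} (hS : Smin ρ S) {y : K} (hy : SafeProd T S y) :
    ¬ ∃ x : KV T S → ℝ, IsV x ∧ Triv (ZMod 2) x ∧ (∃ z, x z ≠ 0) ∧
      ∀ z ∈ BVy T S y, z ≠ 0 → x z ≤ 0 := by
  refine nsg_gen H hS hy.mem (safeProd_ne H hS.1 hy) ?_
  intro x hx hle hxy
  obtain ⟨f, hf1, hf2, rfl⟩ := hy
  have hf0 : ∀ e, f e ≠ 0 := by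
    intro e
    by_cases he : Cyc S e
    · exact safeEl_ne H hS.1 (hf1 e he)
    · rw [hf2 e he]
      exact one_ne_zero
  have hfB : ∀ e, f e ∈ BV T S := by
    intro e
    by_cases he : Cyc S e
    · exact (hf1 e he).mem
    · rw [hf2 e he]
      exact one_mem _
  intro e he
  exact safe_nonneg H.tr hx (hf1 e he) (prod_zero hx hle f hfB hf0 hxy e)

/-- `y` is the product of the traces of generators of the cyclic edge groups -/
def TrProd (T : Γ → K) (S : GG Γ) (y : K) : Prop :=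
  ∃ f : S.E → K, (∀ e, Cyc S e → ∃ z, S.C e = Subgroup.zpowers z ∧ f e = T z) ∧
    (∀ e, ¬ Cyc S e → f e = 1) ∧ y = ∏ e, f e

theorem exists_trProd (T : Γ → K) (S : GG Γ) : ∃ y, TrProd T S y := by
  classical
  have h : ∀ e : S.E, ∃ f : K, (Cyc S e → ∃ z, S.C e = Subgroup.zpowers z ∧ f = T z) ∧
      (¬ Cyc S e → f = 1) := by
    intro e
    by_cases he : Cyc S e
    · obtain ⟨z, hz⟩ := he
      exact ⟨T z, fun _ => ⟨z, hz, rfl⟩, fun h => absurd ⟨z, hz⟩ h⟩
    · exact ⟨1, fun h => absurd h he, fun _ => rfl⟩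
  choose f hf using h
  exact ⟨_, f, fun e => (hf e).1, fun e => (hf e).2, rfl⟩

theorem TrProd.mem {S : GG Γ} {y : K} (h : TrProd T S y) : y ∈ BV T S := by
  obtain ⟨f, h1, h2, rfl⟩ := h
  refine Subalgebra.prod_mem _ fun e _ => ?_
  by_cases he : Cyc S e
  · obtain ⟨z, hz, hf⟩ := h1 e he
    rw [hf]
    exact mem_BV (v := S.a e) (S.Ca e (by rw [hz]; exact Subgroup.mem_zpowers z))
  · rw [h2 e he]
    exact one_mem _

theorem trProd_ne (H : Sc Γ K F T ρ) {S : GG Γ} (hS : S.Adm) {y : K} (h : TrProd T S y) :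
    y ≠ 0 := by
  obtain ⟨f, h1, h2, rfl⟩ := h
  refine Finset.prod_ne_zero_iff.mpr fun e _ => ?_
  by_cases he : Cyc S e
  · obtain ⟨z, hz, hf⟩ := h1 e he
    rw [hf]
    refine T_ne H fun h => hS.ne e ?_
    rw [hz, h, Subgroup.zpowers_one_eq_bot]
  · rw [h2 e he]
    exact one_ne_zero

/-- NSG for the product of the traces of generators of the cyclic edge groups -/
theorem nsg_tr (H : Sc Γ K F T ρ) {S : GG Γ} (hS : Smin ρ S) {y : K} (hy : TrProd T S y) :
    ¬ ∃ x : KV T S → ℝ, IsV x ∧ Triv (ZMod 2) x ∧ (∃ z, x z ≠ 0) ∧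
      ∀ z ∈ BVy T S y, z ≠ 0 → x z ≤ 0 := by
  refine nsg_gen H hS hy.mem (trProd_ne H hS.1 hy) ?_
  intro x hx hle hxy
  obtain ⟨f, hf1, hf2, rfl⟩ := hy
  have hf : ∀ e, f e ∈ BV T S ∧ f e ≠ 0 := by
    intro e
    by_cases he : Cyc S e
    · obtain ⟨z, hz, hf⟩ := hf1 e he
      rw [hf]
      refine ⟨mem_BV (v := S.a e) (S.Ca e (by rw [hz]; exact Subgroup.mem_zpowers z)), ?_⟩
      refine T_ne H fun h => hS.1.ne e ?_
      rw [hz, h, Subgroup.zpowers_one_eq_bot]
    · rw [hf2 e he]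
      exact ⟨one_mem _, one_ne_zero⟩
  intro e he c hc
  obtain ⟨z, hz, hfz⟩ := hf1 e he
  have h1 := prod_zero hx hle f (fun e => (hf e).1) (fun e => (hf e).2) hxy e
  rw [hfz] at h1
  rw [hz] at hc
  exact zpowers_nonneg H.tr hx h1.ge hc

end

end Pool.Agent.SuS
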