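import Pool.Agent.Lib.MP_305fdd_al.Su.S.Defs
import Pool.Agent.Lib.MP_305fdd_al.Fr.S.StepA

/-!
# MP_305fdd_al, closed surface groups, S-machine: bending and moving with weak universality

The theorems of `Fr/S/{Bend, Move}` with `Uv` (universality for all representations) replaced by
`Wv` (universality for good representations over domains).
-/

set_option autoImplicit false

namespace Pool.Agent.SuS

open Matrix (SpecialLinearGroup)
open Pool.Agent.FrN Pool.Agent.FrAsm Pool.Agent.FrS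

/-- the hypotheses of the moving lemmas -/
structure Wv (Γ F : Type) [Group Γ] [Field F] [Algebra (ZMod 2) F]
    (ρ : Γ →* SpecialLinearGroup (Fin 2) F) : Prop where
  inj : Function.Injective ρ
  univ : WU ρ
  nab : ¬ Ab Γ

theorem Sc.wv {Γ K F : Type} [Group Γ] [Field K] [Field F] [Algebra (ZMod 2) K]
    [Algebra (ZMod 2) F] [Algebra K F] {T : Γ → K} {ρ : Γ →* SpecialLinearGroup (Fin 2) F}
    (H : Sc Γ K F T ρ) : Wv Γ F ρ := ⟨H.inj, H.univ, H.nab⟩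

/-- a splitting of a non-abelian group with nontrivial edge groups has a non-abelian vertex -/
theorem exists_NA {Γ : Type} [Group Γ] (hT : Tor Γ) (hnab : ¬ Ab Γ) {S : GG Γ} (hS : S.UP)
    (hne : ∀ e, S.C e ≠ ⊥) : ∃ v, S.NA v := by
  by_contra hno
  push Not at hno
  have hab : ∀ v, ∀ x ∈ S.G v, ∀ y ∈ S.G v, x * y = y * x := by
    intro v
    by_contra h
    exact hno v h
  have hc : ∀ e, ∃ c ∈ S.C e, c ≠ 1 := by
    intro e
    obtain ⟨c, hc⟩ := (S.C e).ne_bot_iff_exists_ne_one.1 (hne e)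
    exact ⟨c, c.2, fun h' => hc (Subtype.ext h')⟩
  obtain ⟨v0⟩ := S.nV
  by_cases h0 : ∃ c ∈ S.G v0, c ≠ 1
  · obtain ⟨c0, hc0, hc1⟩ := h0
    have key : ∀ {w g}, S.Pth v0 w g → ∀ y ∈ S.G w, (g * y * g⁻¹) * c0 = c0 * (g * y * g⁻¹) := by
      intro w g hp
      induction hp with
      | one =>
        intro y hy
        rw [one_mul, inv_one, mul_one]
        exact hab v0 y hy c0 hc0
      | @grp w g x _ hx ih =>
        intro y hy
        have h1 := ih (x * y * x⁻¹) (mul_mem (mul_mem hx hy) (inv_mem hx))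
        have h2 : g * x * y * (g * x)⁻¹ = g * (x * y * x⁻¹) * g⁻¹ := by group
        rw [h2]
        exact h1
      | @fwd g e _ ih =>
        intro y hy
        obtain ⟨c, hce, hcn⟩ := hc e
        have h1 := ih c (S.Ca e hce)
        refine hT.trans _ (g * c * g⁻¹) _ ?_ ?_ h1
        · intro h
          apply hcn
          have h2 : c = g⁻¹ * (g * c * g⁻¹) * g := by group
          rw [h2, h]
          group
        · have h3 := hab _ y hy _ (S.Cb e c hce)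
          have h4 : g * S.s e * y * (g * S.s e)⁻¹ * (g * c * g⁻¹) =
              g * S.s e * (y * ((S.s e)⁻¹ * c * S.s e)) * (g * S.s e)⁻¹ := by group
          rw [h4, h3]
          group
      | @bwd g e _ ih =>
        intro y hy
        obtain ⟨c, hce, hcn⟩ := hc e
        have h1 := ih _ (S.Cb e c hce)
        refine hT.trans _ (g * ((S.s e)⁻¹ * c * S.s e) * g⁻¹) _ ?_ ?_ h1
        · intro h
          apply hcn
          have h2 : c = S.s e * g⁻¹ * (g * ((S.s e)⁻¹ * c * S.s e) * g⁻¹) * g * (S.s e)⁻¹ := by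
            group
          rw [h2, h]
          group
        · have h3 := hab _ y hy _ (S.Ca e hce)
          have h4 : g * (S.s e)⁻¹ * y * (g * (S.s e)⁻¹)⁻¹ *
              (g * ((S.s e)⁻¹ * c * S.s e) * g⁻¹) =
              g * (S.s e)⁻¹ * (y * c) * (g * (S.s e)⁻¹)⁻¹ := by group
          rw [h4, h3]
          group
    have hall : ∀ γ : Γ, γ * c0 = c0 * γ := by
      intro γ
      have h1 := key (hS.gen v0 v0 γ⁻¹) c0 hc0
      rw [inv_inv] at h1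
      exact hT.conj γ c0 hc1 h1
    apply hnab
    intro x y
    exact hT.trans x c0 y hc1 (hall x) (hall y).symm
  · push Not at h0
    have key : ∀ {w g}, S.Pth v0 w g → w = v0 ∧ g = 1 := by
      intro w g hp
      induction hp with
      | one => exact ⟨rfl, rfl⟩
      | @grp w g x _ hx ih =>
        obtain ⟨h1, h2⟩ := ih
        subst h1
        rw [h2, one_mul]
        exact ⟨rfl, h0 x hx⟩
      | @fwd g e _ ih =>
        obtain ⟨c, hce, hcn⟩ := hc e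
        exact absurd (h0 c (ih.1 ▸ S.Ca e hce)) hcn
      | @bwd g e _ ih =>
        obtain ⟨c, hce, hcn⟩ := hc e
        have h1 := h0 _ (ih.1 ▸ S.Cb e c hce)
        exfalso
        apply hcn
        have h2 : c = S.s e * ((S.s e)⁻¹ * c * S.s e) * (S.s e)⁻¹ := by group
        rw [h2, h1]
        group
    apply hnab
    intro x y
    rw [(key (hS.gen v0 v0 x)).2, (key (hS.gen v0 v0 y)).2]

section

variable {Γ F : Type} [Group Γ] [Field F] [Algebra (ZMod 2) F]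
  {ρ : Γ →* SpecialLinearGroup (Fin 2) F}

/-- the traces of a good representation over a field have rank at most the rank of the generic
traces -/
theorem er_rep (hU : WU ρ) {L : Type} [Field L] [Algebra (ZMod 2) L]
    (r : Γ →* SpecialLinearGroup (Fin 2) L) (hr : Gd r) (X : Set Γ) :
    er (trs r X) ≤ er (trs ρ X) := by
  obtain ⟨φ, hφ⟩ := hU L r hr
  let T : Γ → OO 2 ρ := fun g => ⟨(ρ g).1 0 0, mem_OO ρ g 0 0⟩ + ⟨(ρ g).1 1 1, mem_OO ρ g 1 1⟩
  have h1 : ∀ g, φ (T g) = tr r g := by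
    intro g
    simp only [T, map_add, hφ]
    exact (sl_tr (r g)).symm
  have h2 : ∀ g, ((T g : OO 2 ρ) : F) = tr ρ g := fun g => (sl_tr (ρ g)).symm
  have h3 := er_spec φ (T '' X)
  rw [Set.image_image, Set.image_image] at h3
  simp only [h1, h2] at h3
  exact h3

/-- BENDING at an edge between two non-abelian vertices: there is an element in the group
generated by the two vertex groups whose trace is transcendental over the traces of all vertex groups.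
-/
theorem bend_edge (hU : Wv Γ F ρ) (hT : ∀ g, tr ρ g = 0 → g = 1) {S : GG Γ} (hS : S.UP) (e : S.E)
    (hne : S.C e ≠ ⊥) (hab : ∀ x ∈ S.C e, ∀ y ∈ S.C e, x * y = y * x)
    (ha : S.NA (S.a e)) (hb : S.NA (S.b e)) :
    ∃ x ∈ S.G (S.a e), ∃ y ∈ S.G (S.b e), ∀ Y : Set Γ, (∀ z ∈ Y, ∃ v, z ∈ S.G v) →
      1 + er (trs ρ Y) ≤ er (trs ρ (insert (x * (S.s e * y * (S.s e)⁻¹)) Y)) := by
  have _ := charTwo_of_alg F
  let k := AlgebraicClosure F
  have _ : CharP k 2 := charTwo_of_alg k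
  let L := FractionRing (Polynomial k)
  let i : F →ₐ[ZMod 2] k := IsScalarTower.toAlgHom (ZMod 2) F k
  let j : k →ₐ[ZMod 2] L := IsScalarTower.toAlgHom (ZMod 2) k L
  obtain ⟨c, hc, hc1⟩ := (S.C e).ne_bot_iff_exists_ne_one.1 hne |>.elim fun c h =>
    (⟨c.1, c.2, fun h' => h (Subtype.ext h')⟩ : ∃ c : Γ, c ∈ S.C e ∧ c ≠ 1)
  obtain ⟨P, hP⟩ := exists_torus hT (i : F →+* k) hc1
  -- the parameter
  have hX : (algebraMap (Polynomial k) L) Polynomial.X ≠ 0 := by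
    rw [Ne, map_eq_zero_iff _ (IsFractionRing.injective _ _)]
    exact Polynomial.X_ne_zero
  let θ : Lˣ := Units.mk0 _ hX
  let m := Matrix.SpecialLinearGroup.map (n := Fin 2) (j : k →+* L)
  let r₀ : Γ →* SpecialLinearGroup (Fin 2) L := m.comp (bc (i : F →+* k) ρ)
  have hr₀ : ∀ g, tr r₀ g = j (i (tr ρ g)) := by
    intro g
    have h1 := tr_bc (j : k →+* L) (bc (i : F →+* k) ρ) g
    rw [tr_bc (i : F →+* k) ρ g] at h1
    exact h1
  have hr₀m : ∀ g, r₀ g = m (bc (i : F →+* k) ρ g) := fun _ => rfl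
  obtain ⟨D, hDdef⟩ : ∃ D, D = m P * dg θ * (m P)⁻¹ := ⟨_, rfl⟩
  have hmdg : ∀ b : kˣ, ∃ b' : Lˣ, m (dg b) = dg b' := by
    intro b
    apply eq_dg
    · change j ((dg b).1 0 1) = 0
      rw [dg_01, map_zero]
    · change j ((dg b).1 1 0) = 0
      rw [dg_10, map_zero]
  have hD : ∀ d ∈ S.C e, D * r₀ d = r₀ d * D := by
    intro d hd
    obtain ⟨b, hb'⟩ := hP d (hab d hd c hc)
    obtain ⟨b', hb''⟩ := hmdg b
    have h1 : r₀ d = m P * dg b' * (m P)⁻¹ := by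
      rw [← hb'', ← hb', map_mul, map_mul, map_inv, hr₀m]
      group
    rw [h1, hDdef]
    calc m P * dg θ * (m P)⁻¹ * (m P * dg b' * (m P)⁻¹) = m P * (dg θ * dg b') * (m P)⁻¹ := by group
      _ = m P * (dg b' * dg θ) * (m P)⁻¹ := by rw [dg_comm]
      _ = _ := by group
  obtain ⟨r, g, hr1, _, hr3⟩ := hS.bend r₀ e D hD
  -- the elements
  obtain ⟨x, hx, hx10⟩ := (exists_nz hT (i : F →+* k) P (S.G (S.a e)) ha).2
  obtain ⟨y, hy, hy01⟩ := (exists_nz hT (i : F →+* k) ((bc (i : F →+* k) ρ (S.s e))⁻¹ * P)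
    (S.G (S.b e)) hb).1
  refine ⟨x, hx, y, hy, fun Y hY => ?_⟩
  set w := x * (S.s e * y * (S.s e)⁻¹) with hw
  set A := P⁻¹ * bc (i : F →+* k) ρ x * P with hA
  set B := ((bc (i : F →+* k) ρ (S.s e))⁻¹ * P)⁻¹ * bc (i : F →+* k) ρ y *
    ((bc (i : F →+* k) ρ (S.s e))⁻¹ * P) with hB
  have htr : tr r w = algebraMap k L (A.1 0 0 * B.1 0 0 + A.1 1 1 * B.1 1 1) +
      algebraMap k L (A.1 1 0 * B.1 0 1) * (θ : L) ^ 2 +
      algebraMap k L (A.1 0 1 * B.1 1 0) * ((θ⁻¹ : Lˣ) : L) ^ 2 := by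
    have h1 : r w = g (S.a e) * (r₀ x * D * r₀ (S.s e) * r₀ y * (r₀ (S.s e))⁻¹ * D⁻¹) *
        (g (S.a e))⁻¹ := by
      rw [hw, map_mul, map_mul, map_mul, map_inv, hr1 _ x hx, hr1 _ y hy, hr3]
      group
    have h2 : r₀ x * D * r₀ (S.s e) * r₀ y * (r₀ (S.s e))⁻¹ * D⁻¹ =
        m P * (m A * dg θ * m B * dg θ⁻¹) * (m P)⁻¹ := by
      rw [← dg_inv, hA, hB, hDdef, hr₀m, hr₀m, hr₀m]
      simp only [map_mul, map_inv]
      group
    unfold tr
    rw [h1, tr_conj, h2, tr_conj, sl_tr]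
    simp only [sl_mul, dg_00, dg_01, dg_10, dg_11, inv_inv]
    change ((j (A.1 0 0) * (θ : L) + j (A.1 0 1) * 0) * j (B.1 0 0) +
      (j (A.1 0 0) * 0 + j (A.1 0 1) * ((θ⁻¹ : Lˣ) : L)) * j (B.1 1 0)) * ((θ⁻¹ : Lˣ) : L) +
      ((j (A.1 0 0) * (θ : L) + j (A.1 0 1) * 0) * j (B.1 0 1) +
      (j (A.1 0 0) * 0 + j (A.1 0 1) * ((θ⁻¹ : Lˣ) : L)) * j (B.1 1 1)) * 0 +
      (((j (A.1 1 0) * (θ : L) + j (A.1 1 1) * 0) * j (B.1 0 0) +
      (j (A.1 1 0) * 0 + j (A.1 1 1) * ((θ⁻¹ : Lˣ) : L)) * j (B.1 1 0)) * 0 +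
      ((j (A.1 1 0) * (θ : L) + j (A.1 1 1) * 0) * j (B.1 0 1) +
      (j (A.1 1 0) * 0 + j (A.1 1 1) * ((θ⁻¹ : Lˣ) : L)) * j (B.1 1 1)) * (θ : L)) =
      j (A.1 0 0 * B.1 0 0 + A.1 1 1 * B.1 1 1) + j (A.1 1 0 * B.1 0 1) * (θ : L) ^ 2 +
      j (A.1 0 1 * B.1 1 0) * ((θ⁻¹ : Lˣ) : L) ^ 2
    have hθ1 : (θ : L) * ((θ⁻¹ : Lˣ) : L) = 1 := by simp
    simp only [map_add, map_mul]
    linear_combination (j (A.1 0 0) * j (B.1 0 0) + j (A.1 1 1) * j (B.1 1 1)) * hθ1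
  have htrans : Transcendental k (tr r w) := by
    rw [htr]
    exact transc 2 (by norm_num) _ _ _ (Or.inl (mul_ne_zero hx10 hy01)) θ rfl
  have h3 := one_add_le htrans (i '' trs ρ Y)
  rw [er_map i] at h3
  have hGd : Gd r := by
    refine gd_of hU.inj hT ha r ((j : k →+* L).comp (i : F →+* k)) ?_
    intro z hz
    show tr r z = j (i (tr ρ z))
    rw [← hr₀]
    unfold tr
    rw [hr1 _ z hz, tr_conj]
  refine le_trans h3 (le_trans (le_of_eq ?_) (er_rep hU.univ r hGd (insert w Y)))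
  congr 1
  unfold trs
  rw [Set.image_insert_eq]
  congr 1
  ext z
  constructor
  · rintro ⟨_, ⟨_, ⟨u, hu, rfl⟩, rfl⟩, rfl⟩
    refine ⟨u, hu, ?_⟩
    obtain ⟨v, hv⟩ := hY u hu
    unfold tr
    rw [hr1 v u hv, tr_conj]
    exact hr₀ u
  · rintro ⟨u, hu, rfl⟩
    refine ⟨_, ⟨_, ⟨u, hu, rfl⟩, rfl⟩, ?_⟩
    obtain ⟨v, hv⟩ := hY u hu
    unfold tr
    rw [hr1 v u hv, tr_conj]
    exact (hr₀ u).symm

/-- BENDING at a loop at a non-abelian vertex -/
theorem bend_loop (hU : Wv Γ F ρ) (hT : ∀ g, tr ρ g = 0 → g = 1) {S : GG Γ} (hS : S.UP) (e : S.E)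
    (hne : S.C e ≠ ⊥) (hab : ∀ x ∈ S.C e, ∀ y ∈ S.C e, x * y = y * x)
    (hl : S.b e = S.a e) (ha : S.NA (S.a e)) :
    ∃ x ∈ S.G (S.a e), ∀ Y : Set Γ, (∀ z ∈ Y, ∃ v, z ∈ S.G v) →
      1 + er (trs ρ Y) ≤ er (trs ρ (insert (x * S.s e) Y)) := by
  have _ := charTwo_of_alg F
  let k := AlgebraicClosure F
  have _ : CharP k 2 := charTwo_of_alg k
  let L := FractionRing (Polynomial k)
  let i : F →ₐ[ZMod 2] k := IsScalarTower.toAlgHom (ZMod 2) F k
  let j : k →ₐ[ZMod 2] L := IsScalarTower.toAlgHom (ZMod 2) k L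
  obtain ⟨c, hc, hc1⟩ := (S.C e).ne_bot_iff_exists_ne_one.1 hne |>.elim fun c h =>
    (⟨c.1, c.2, fun h' => h (Subtype.ext h')⟩ : ∃ c : Γ, c ∈ S.C e ∧ c ≠ 1)
  obtain ⟨P, hP⟩ := exists_torus hT (i : F →+* k) hc1
  -- the parameter
  have hX : (algebraMap (Polynomial k) L) Polynomial.X ≠ 0 := by
    rw [Ne, map_eq_zero_iff _ (IsFractionRing.injective _ _)]
    exact Polynomial.X_ne_zero
  let θ : Lˣ := Units.mk0 _ hX
  let m := Matrix.SpecialLinearGroup.map (n := Fin 2) (j : k →+* L)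
  let r₀ : Γ →* SpecialLinearGroup (Fin 2) L := m.comp (bc (i : F →+* k) ρ)
  have hr₀ : ∀ g, tr r₀ g = j (i (tr ρ g)) := by
    intro g
    have h1 := tr_bc (j : k →+* L) (bc (i : F →+* k) ρ) g
    rw [tr_bc (i : F →+* k) ρ g] at h1
    exact h1
  have hr₀m : ∀ g, r₀ g = m (bc (i : F →+* k) ρ g) := fun _ => rfl
  obtain ⟨D, hDdef⟩ : ∃ D, D = m P * dg θ * (m P)⁻¹ := ⟨_, rfl⟩
  have hmdg : ∀ b : kˣ, ∃ b' : Lˣ, m (dg b) = dg b' := by
    intro b
    apply eq_dg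
    · change j ((dg b).1 0 1) = 0
      rw [dg_01, map_zero]
    · change j ((dg b).1 1 0) = 0
      rw [dg_10, map_zero]
  have hD : ∀ d ∈ S.C e, D * r₀ d = r₀ d * D := by
    intro d hd
    obtain ⟨b, hb'⟩ := hP d (hab d hd c hc)
    obtain ⟨b', hb''⟩ := hmdg b
    have h1 : r₀ d = m P * dg b' * (m P)⁻¹ := by
      rw [← hb'', ← hb', map_mul, map_mul, map_inv, hr₀m]
      group
    rw [h1, hDdef]
    calc m P * dg θ * (m P)⁻¹ * (m P * dg b' * (m P)⁻¹) = m P * (dg θ * dg b') * (m P)⁻¹ := by group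
      _ = m P * (dg b' * dg θ) * (m P)⁻¹ := by rw [dg_comm]
      _ = _ := by group
  obtain ⟨r, g, hr1, _, hr3⟩ := hS.bend r₀ e D hD
  -- the element
  obtain ⟨x0, hx0, hx01⟩ := (exists_nz hT (i : F →+* k) P (S.G (S.a e)) ha).1
  set A := P⁻¹ * bc (i : F →+* k) ρ (S.s e) * P with hA
  have hx : ∃ x ∈ S.G (S.a e), (A * (P⁻¹ * bc (i : F →+* k) ρ x * P)).1 0 0 ≠ 0 ∨
      (A * (P⁻¹ * bc (i : F →+* k) ρ x * P)).1 1 1 ≠ 0 := by
    by_cases h0 : A.1 0 0 = 0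
    · by_cases h1 : A.1 1 1 = 0
      · refine ⟨x0, hx0, Or.inr ?_⟩
        rw [sl_mul, h1, zero_mul, add_zero]
        refine mul_ne_zero ?_ hx01
        intro h2
        have h3 := sl_det A
        rw [h0, h2] at h3
        simp at h3
      · refine ⟨1, one_mem _, Or.inr ?_⟩
        rw [map_one, mul_one, inv_mul_cancel, mul_one]
        exact h1
    · refine ⟨1, one_mem _, Or.inl ?_⟩
      rw [map_one, mul_one, inv_mul_cancel, mul_one]
      exact h0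
  obtain ⟨x, hx, hxx⟩ := hx
  refine ⟨x, hx, fun Y hY => ?_⟩
  set B := A * (P⁻¹ * bc (i : F →+* k) ρ x * P) with hB
  have htr : tr r (x * S.s e) = algebraMap k L 0 +
      algebraMap k L (B.1 0 0) * (θ : L) ^ 1 +
      algebraMap k L (B.1 1 1) * ((θ⁻¹ : Lˣ) : L) ^ 1 := by
    have h1 : r (x * S.s e) = (g (S.a e) * r₀ x * D) * (r₀ (S.s e) * r₀ x * D) *
        (g (S.a e) * r₀ x * D)⁻¹ := by
      rw [map_mul, hr1 _ x hx, hr3, hl]
      group
    have h2 : r₀ (S.s e) * r₀ x * D = m P * (m B * dg θ) * (m P)⁻¹ := by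
      rw [hB, hA, hDdef, hr₀m, hr₀m]
      simp only [map_mul, map_inv]
      group
    unfold tr
    rw [h1, tr_conj, h2, tr_conj, sl_tr]
    simp only [sl_mul, dg_00, dg_01, dg_10, dg_11]
    change j (B.1 0 0) * (θ : L) + j (B.1 0 1) * 0 + (j (B.1 1 0) * 0 +
      j (B.1 1 1) * ((θ⁻¹ : Lˣ) : L)) = j 0 + j (B.1 0 0) * (θ : L) ^ 1 +
      j (B.1 1 1) * ((θ⁻¹ : Lˣ) : L) ^ 1
    rw [map_zero]
    ring
  have htrans : Transcendental k (tr r (x * S.s e)) := by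
    rw [htr]
    exact transc 1 le_rfl _ _ _ hxx θ rfl
  have h3 := one_add_le htrans (i '' trs ρ Y)
  rw [er_map i] at h3
  have hGd : Gd r := by
    refine gd_of hU.inj hT ha r ((j : k →+* L).comp (i : F →+* k)) ?_
    intro z hz
    show tr r z = j (i (tr ρ z))
    rw [← hr₀]
    unfold tr
    rw [hr1 _ z hz, tr_conj]
  refine le_trans h3 (le_trans (le_of_eq ?_) (er_rep hU.univ r hGd (insert (x * S.s e) Y)))
  congr 1
  unfold trs
  rw [Set.image_insert_eq]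
  congr 1
  ext z
  constructor
  · rintro ⟨_, ⟨_, ⟨u, hu, rfl⟩, rfl⟩, rfl⟩
    refine ⟨u, hu, ?_⟩
    obtain ⟨v, hv⟩ := hY u hu
    unfold tr
    rw [hr1 v u hv, tr_conj]
    exact hr₀ u
  · rintro ⟨u, hu, rfl⟩
    refine ⟨_, ⟨_, ⟨u, hu, rfl⟩, rfl⟩, ?_⟩
    obtain ⟨v, hv⟩ := hY u hu
    unfold tr
    rw [hr1 v u hv, tr_conj]
    exact (hr₀ u).symm

/-- MOVING LEMMA: the traces of one vertex group and the traces of the other vertex groups are
independent over the traces of the edge groups. -/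
theorem move_vertex (hU : Wv Γ F ρ) (hT : ∀ g, tr ρ g = 0 → g = 1) {S : GG Γ} (hS : S.UP)
    (hne : ∀ e, S.C e ≠ ⊥) (hab : ∀ e, ∀ x ∈ S.C e, ∀ y ∈ S.C e, x * y = y * x) (v : S.V)
    (Y : Set Γ) (hY : ∀ z ∈ Y, (∃ w, w ≠ v ∧ z ∈ S.G w) ∨
      ∃ e, (S.a e = v ∨ S.b e = v) ∧ z ∈ S.C e) :
    er (trs ρ (S.G v : Set Γ)) + er (dv ρ S v ∪ trs ρ Y) ≤
      er (dv ρ S v) + er (trs ρ (S.G v : Set Γ) ∪ trs ρ Y) := by
  let k := AlgebraicClosure F
  let i : F →ₐ[ZMod 2] k := IsScalarTower.toAlgHom (ZMod 2) F k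
  obtain ⟨L, _, _, j, τ, hZ, hW⟩ := exists_generic (i '' dv ρ S v) (i '' trs ρ (S.G v : Set Γ))
    (Set.image_mono (dv_sub S v))
  let mj := Matrix.SpecialLinearGroup.map (n := Fin 2) (j : k →+* L)
  let mτ := Matrix.SpecialLinearGroup.map (n := Fin 2) (τ : k →+* L)
  let r₀ : Γ →* SpecialLinearGroup (Fin 2) L := mj.comp (bc (i : F →+* k) ρ)
  let r₁ : Γ →* SpecialLinearGroup (Fin 2) L := mτ.comp (bc (i : F →+* k) ρ)
  have hr₀ : ∀ g, tr r₀ g = j (i (tr ρ g)) := by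
    intro g
    have h1 := tr_bc (j : k →+* L) (bc (i : F →+* k) ρ) g
    rw [tr_bc (i : F →+* k) ρ g] at h1
    exact h1
  have hr₁ : ∀ g, tr r₁ g = τ (i (tr ρ g)) := by
    intro g
    have h1 := tr_bc (τ : k →+* L) (bc (i : F →+* k) ρ) g
    rw [tr_bc (i : F →+* k) ρ g] at h1
    exact h1
  have hc0 : ∀ e, ∃ c ∈ S.C e, c ≠ 1 := by
    intro e
    obtain ⟨c, hc⟩ := (S.C e).ne_bot_iff_exists_ne_one.1 (hne e)
    exact ⟨c, c.2, fun h' => hc (Subtype.ext h')⟩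
  obtain ⟨r, g, hr1, hr2⟩ := hS.move r₀ v r₁ (fun x _ y _ => map_mul r₁ x y) (by
    intro e he
    obtain ⟨c, hc, hc1⟩ := hc0 e
    exact exists_conj hT i j τ _ hZ hc1 (S.C e : Set Γ) (fun d hd => hab e d hd c hc)
      (fun d hd => ⟨_, ⟨d, ⟨e, Or.inl he, hd⟩, rfl⟩, rfl⟩)) (by
    intro e he
    obtain ⟨c, hc, hc1⟩ := hc0 e
    obtain ⟨h, hh⟩ := exists_conj hT i j τ _ hZ (c := (S.s e)⁻¹ * c * S.s e) (by
        intro h
        apply hc1
        have h1 : c = S.s e * ((S.s e)⁻¹ * c * S.s e) * (S.s e)⁻¹ := by group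
        rw [h1, h]
        group) ((fun d => (S.s e)⁻¹ * d * S.s e) '' (S.C e : Set Γ)) (by
        rintro _ ⟨d, hd, rfl⟩
        have h1 := hab e d hd c hc
        calc (S.s e)⁻¹ * d * S.s e * ((S.s e)⁻¹ * c * S.s e) = (S.s e)⁻¹ * (d * c) * S.s e := by
              group
          _ = (S.s e)⁻¹ * (c * d) * S.s e := by rw [h1]
          _ = _ := by group) (by
        rintro _ ⟨d, hd, rfl⟩
        exact ⟨_, ⟨d, ⟨e, Or.inr he, hd⟩, rfl⟩, by rw [tr_cj]⟩)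
    exact ⟨h, fun d hd => hh _ ⟨d, hd, rfl⟩⟩)
  have htv : ∀ x ∈ S.G v, tr r x = τ (i (tr ρ x)) := by
    intro x hx
    rw [← hr₁]
    unfold tr
    rw [hr2 x hx, tr_conj]
  have htw : ∀ w, w ≠ v → ∀ x ∈ S.G w, tr r x = j (i (tr ρ x)) := by
    intro w hw x hx
    rw [← hr₀]
    unfold tr
    rw [hr1 w hw x hx, tr_conj]
  have hjτ : ∀ c ∈ dv ρ S v, j (i c) = τ (i c) := by
    intro c hc
    exact hZ _ (isAlgebraic_algebraMap (⟨i c, Algebra.subset_adjoin ⟨c, hc, rfl⟩⟩ :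
      Algebra.adjoin (ZMod 2) (i '' dv ρ S v)))
  have hte : ∀ e, (S.a e = v ∨ S.b e = v) → ∀ c ∈ S.C e, tr r c = j (i (tr ρ c)) := by
    intro e he c hc
    by_cases hae : S.a e = v
    · rw [htv c (hae ▸ S.Ca e hc), hjτ]
      exact ⟨c, ⟨e, he, hc⟩, rfl⟩
    · exact htw _ hae c (S.Ca e hc)
  have hW1 := hW (i '' trs ρ Y)
  rw [← Set.image_union, er_map i, er_map i, er_map i] at hW1
  refine le_trans hW1 (add_le_add le_rfl ?_)
  have hGd : Gd r := by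
    obtain ⟨w, hw⟩ := exists_NA (tor_of hU.inj hT) hU.nab hS hne
    by_cases hwv : w = v
    · subst hwv
      exact gd_of hU.inj hT hw r ((τ : k →+* L).comp (i : F →+* k)) (fun z hz => htv z hz)
    · exact gd_of hU.inj hT hw r ((j : k →+* L).comp (i : F →+* k)) (fun z hz => htw w hwv z hz)
  have h3 := er_rep hU.univ r hGd ((S.G v : Set Γ) ∪ Y)
  have h4 : trs ρ ((S.G v : Set Γ) ∪ Y) = trs ρ (S.G v : Set Γ) ∪ trs ρ Y := Set.image_union _ _ _
  rw [h4] at h3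
  refine le_trans (er_mono ?_) h3
  rintro z (⟨_, ⟨_, ⟨x, hx, rfl⟩, rfl⟩, rfl⟩ | ⟨_, ⟨u, (hu | ⟨y, hy, rfl⟩), rfl⟩, rfl⟩)
  · exact ⟨x, Or.inl hx, htv x hx⟩
  · obtain ⟨x, hx, hxu⟩ := dv_sub S v hu
    refine ⟨x, Or.inl hx, ?_⟩
    rw [htv x hx, hxu]
    exact (hjτ u hu).symm
  · refine ⟨y, Or.inr hy, ?_⟩
    rcases hY y hy with ⟨w, hw, hyw⟩ | ⟨e, he, hye⟩
    · exact htw w hw y hyw
    · exact hte e he y hye

end

end Pool.Agent.SuS
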