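import Pool.Agent.Lib.MP_305fdd_al.Fr.C2.CaseBfin
import Pool.Agent.Lib.MP_305fdd_al.Su.X.Abs

/-!
# MP_305fdd_al, closed surface groups, S-machine: CASE B from abstract Lemma X

The theorems of `Fr/C2/{Ctrb, CaseB, CaseBfin}` with the class `HB` replaced by `LX ρ`, `Γ` finitely
generated and `F` the field of fractions of the ring of entries.
-/

set_option autoImplicit false
set_option linter.unusedSectionVars false
set_option linter.unusedVariables false

namespace Pool.Agent.SuS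

open Pool.Agent.FrCB Pool.Agent.FrC2 Pool.Agent.FrS Pool.Agent.FrR Pool.Agent.FrN
open Pool.Agent.SuX
open Matrix (SpecialLinearGroup)

section Main

variable {Γ F : Type} [Group Γ] [Field F] [Algebra (ZMod 2) F]
    {ρ : Γ →* SpecialLinearGroup (Fin 2) F}

/-- no edge is hyperbolic -/
theorem ctrb_base (h : LX ρ) (hinj : Function.Injective ρ)
    (hnc : ∃ y z : Γ, y * z ≠ z * y) {Hy : Γ → Prop} (hHy : HyP Hy) (S : GG Γ) (hS : S.UP)
    (hfgV : ∀ v, (S.G v).FG) (hfgE : ∀ e, (S.C e).FG) (hne : ∀ e, S.C e ≠ ⊥)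
    (hno : ∀ e, ∀ c ∈ S.C e, ¬ Hy c) (v : S.V) (hv : AbV S v) (c : Γ) (hc : c ∈ S.G v)
    (hcy : Hy c) : False := by
  obtain ⟨N, hN⟩ := hHy.sub (S.G v) hv
  have hedge : ∃ e, S.a e = v ∨ S.b e = v := by
    by_contra hno
    push Not at hno
    have key : ∀ {w g}, S.Pth v w g → w = v ∧ g ∈ S.G v := by
      intro w g hp
      induction hp with
      | one => exact ⟨rfl, one_mem _⟩
      | grp _ hy ih =>
        obtain ⟨h1, h2⟩ := ih
        subst h1
        exact ⟨rfl, mul_mem h2 hy⟩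
      | fwd e _ ih => exact absurd ih.1 (hno e).1
      | bwd e _ ih => exact absurd ih.1 (hno e).2
    obtain ⟨y, z, hyz⟩ := hnc
    exact hyz (hv y (key (hS.gen v v y)).2 z (key (hS.gen v v z)).2)
  have ha : ∀ e, S.a e = v → ∀ c ∈ S.C e, c ∈ N := by
    rintro e rfl c hc
    exact (hN c).2 ⟨S.Ca e hc, hno e c hc⟩
  have hb : ∀ e, S.b e = v → ∀ c ∈ S.C e, (S.s e)⁻¹ * c * S.s e ∈ N := by
    rintro e rfl c hc
    refine (hN _).2 ⟨S.Cb e c hc, fun h1 => hno e c hc ?_⟩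
    rw [← hHy.conj_iff c (S.s e)⁻¹, inv_inv]
    exact h1
  have hρ : ∀ c : Γ, c ≠ 1 → ρ c ≠ 1 := fun c hc h1 => hc (hinj (by rw [h1, map_one]))
  obtain ⟨m, hm, hm1⟩ : ∃ m ∈ N, ρ m ≠ 1 := by
    obtain ⟨e, he⟩ := hedge
    obtain ⟨⟨c, hc⟩, hc1⟩ := Subgroup.ne_bot_iff_exists_ne_one.1 (hne e)
    have hc2 : c ≠ 1 := fun h1 => hc1 (Subtype.ext h1)
    rcases he with he | he
    · exact ⟨c, ha e he c hc, hρ c hc2⟩
    · refine ⟨(S.s e)⁻¹ * c * S.s e, hb e he c hc, hρ _ fun h1 => hc2 ?_⟩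
      have h2 : c = S.s e * ((S.s e)⁻¹ * c * S.s e) * (S.s e)⁻¹ := by group
      rw [h2, h1]
      group
  obtain ⟨_, h2⟩ := LX.sub h S hS hfgV hfgE v hv N (fun m hm => ((hN m).1 hm).1) ha hb m hm
    hm1
  obtain ⟨n, hn, h3⟩ := h2 c hc
  exact ((hN _).1 h3).2 (hHy.pow c n hn hcy)

/-- THEOREM: if all hyperbolic edges join commutative vertices, then no commutative vertex group
contains a hyperbolic element. -/
theorem ctrb (h : LX ρ) (hinj : Function.Injective ρ)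
    (hnc : ∃ y z : Γ, y * z ≠ z * y)
    (hct : ∀ a b c : Γ, a ≠ 1 → a * b = b * a → a * c = c * a → b * c = c * b)
    (hcsa : ∀ a g : Γ, a ≠ 1 → a * (g * a * g⁻¹) = g * a * g⁻¹ * a → a * g = g * a)
    {Hy : Γ → Prop} (hHy : HyP Hy) :
    ∀ (n : ℕ) (S : GG Γ), Nat.card S.E = n → S.UP → (∀ v, (S.G v).FG) → (∀ e, (S.C e).FG) →
      (∀ e, S.C e ≠ ⊥) → (∀ e, (∃ c ∈ S.C e, Hy c) → AbV S (S.a e) ∧ AbV S (S.b e)) →
      (∃ v, AbV S v ∧ ∃ c ∈ S.G v, Hy c) → False := by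
  intro n
  induction n using Nat.strong_induction_on with
  | _ n ih =>
  intro S hn hS hfgV hfgE hne hH1 hH2
  by_cases hhy : ∃ e, ∃ c ∈ S.C e, Hy c
  swap
  · push Not at hhy
    obtain ⟨v, hv, c, hc, hcy⟩ := hH2
    exact ctrb_base h hinj hnc hHy S hS hfgV hfgE hne hhy v hv c hc hcy
  obtain ⟨e0, c0, hc0, hcy0⟩ := hhy
  obtain ⟨haA, haB⟩ := hH1 e0 ⟨c0, hc0, hcy0⟩
  have hc1 : c0 ≠ 1 := by
    rintro rfl
    exact hHy.one hcy0
  have hcent : ∀ x ∈ Subgroup.centralizer {c0}, ∀ y ∈ Subgroup.centralizer {c0},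
      x * y = y * x := by
    intro x hx y hy
    rw [Subgroup.mem_centralizer_singleton_iff] at hx hy
    exact hct c0 x y hc1 hx.symm hy.symm
  have hGa : S.G (S.a e0) ≤ Subgroup.centralizer {c0} := by
    intro x hx
    rw [Subgroup.mem_centralizer_singleton_iff]
    exact (haA _ (S.Ca e0 hc0) _ hx).symm
  have hlt : Nat.card {e : S.E // e ≠ e0} < n := by
    rw [← hn]
    exact Finite.card_subtype_lt (x := e0) (by simp)
  by_cases h0 : S.a e0 = S.b e0
  · -- a loop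
    have h0' : S.b e0 = S.a e0 := h0.symm
    have hs : S.s e0 ∈ Subgroup.centralizer {c0} := by
      rw [Subgroup.mem_centralizer_singleton_iff]
      have h1 := S.Cb e0 c0 hc0
      rw [h0'] at h1
      have h2 := haA _ (S.Ca e0 hc0) _ h1
      have h3 := hcsa c0 (S.s e0)⁻¹ hc1 (by rw [inv_inv]; exact h2)
      have h4 : c0 * S.s e0 = S.s e0 * ((S.s e0)⁻¹ * c0) * S.s e0 := by group
      rw [h4, ← h3]
      group
    have hAb : ∀ w, AbV S w → AbV (S.ctrL e0) (S.lV e0 w) := by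
      intro w hw
      by_cases hwa : w = S.a e0
      · subst hwa
        intro x hx y hy
        rw [GG.ctrL_G_a] at hx hy
        have hle : S.G (S.a e0) ⊔ Subgroup.zpowers (S.s e0) ≤ Subgroup.centralizer {c0} :=
          sup_le hGa (by rw [Subgroup.zpowers_le]; exact hs)
        exact hcent _ (hle hx) _ (hle hy)
      · intro x hx y hy
        rw [GG.ctrL_G_ne _ _ hwa] at hx hy
        exact hw x hx y hy
    refine ih _ hlt (S.ctrL e0) rfl (S.ctrL_up e0 h0' hS) ?_ ?_ ?_ ?_ ?_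
    · intro w'
      obtain ⟨w, rfl⟩ : ∃ w, S.lV e0 w = w' := ⟨_, S.lV_lW e0 w'⟩
      by_cases hwa : w = S.a e0
      · subst hwa
        rw [GG.ctrL_G_a]
        refine Subgroup.FG.sup (hfgV _) ?_
        exact (Subgroup.fg_iff _).2 ⟨{S.s e0}, by rw [Subgroup.zpowers_eq_closure],
          Set.finite_singleton _⟩
      · rw [GG.ctrL_G_ne _ _ hwa]
        exact hfgV _
    · intro e
      rw [GG.ctrL_C]
      exact hfgE _
    · intro e
      rw [GG.ctrL_C]
      exact hne _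
    · rintro e ⟨c, hc, hcy⟩
      rw [GG.ctrL_C] at hc
      obtain ⟨h1, h2⟩ := hH1 _ ⟨c, hc, hcy⟩
      rw [GG.ctrL_a, GG.ctrL_b]
      exact ⟨hAb _ h1, hAb _ h2⟩
    · exact ⟨S.lV e0 (S.a e0), hAb _ haA, c0, S.le_ctrL_G e0 _ (S.Ca e0 hc0), hcy0⟩
  · -- different ends
    have hGb : (S.G (S.b e0)).comap (MulAut.conj (S.s e0)⁻¹).toMonoidHom ≤
        Subgroup.centralizer {c0} := by
      intro x hx
      have hx' : (S.s e0)⁻¹ * x * (S.s e0)⁻¹⁻¹ ∈ S.G (S.b e0) := hx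
      rw [inv_inv] at hx'
      rw [Subgroup.mem_centralizer_singleton_iff]
      have h1 := haB _ (S.Cb e0 c0 hc0) _ hx'
      have h2 : c0 * x = S.s e0 * (((S.s e0)⁻¹ * c0 * S.s e0) * ((S.s e0)⁻¹ * x * S.s e0)) *
        (S.s e0)⁻¹ := by group
      rw [h2, h1]
      group
    have hsup : S.G (S.a e0) ⊔ (S.G (S.b e0)).comap (MulAut.conj (S.s e0)⁻¹).toMonoidHom ≤
        Subgroup.centralizer {c0} := sup_le hGa hGb
    have hAb : ∀ w, AbV S w → AbV (S.ctr e0 h0) (S.cφ e0 h0 w) := by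
      intro w hw x hx y hy
      by_cases hwb : w = S.b e0
      · subst hwb
        rw [GG.ctr_G_b] at hx hy
        exact hcent _ (hsup hx) _ (hsup hy)
      · by_cases hwa : w = S.a e0
        · subst hwa
          rw [GG.ctr_G_a] at hx hy
          exact hcent _ (hsup hx) _ (hsup hy)
        · rw [GG.ctr_G_ne _ _ _ hwa hwb] at hx hy
          exact hw x hx y hy
    refine ih _ hlt (S.ctr e0 h0) rfl (S.ctr_up e0 h0 hS) ?_ ?_ ?_ ?_ ?_
    · intro w'
      obtain ⟨w, rfl⟩ : ∃ w, S.cφ e0 h0 w = w' := ⟨_, S.cφ_cσ e0 h0 w'⟩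
      have hsupfg : (S.G (S.a e0) ⊔
          (S.G (S.b e0)).comap (MulAut.conj (S.s e0)⁻¹).toMonoidHom).FG := by
        refine Subgroup.FG.sup (hfgV _) (fg_of_equiv (hfgV (S.b e0)) (S.s e0) ?_)
        intro x
        show (S.s e0)⁻¹ * x * (S.s e0)⁻¹⁻¹ ∈ S.G (S.b e0) ↔ _
        rw [inv_inv]
      by_cases hwb : w = S.b e0
      · subst hwb
        rw [GG.ctr_G_b]
        exact hsupfg
      · by_cases hwa : w = S.a e0
        · subst hwa
          rw [GG.ctr_G_a]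
          exact hsupfg
        · rw [GG.ctr_G_ne _ _ _ hwa hwb]
          exact hfgV _
    · intro e
      exact fg_of_equiv (hfgE _) _ fun x => S.mem_ctr_C e0 h0 e x
    · intro e
      exact ne_bot_of_equiv (hne _) _ fun x => S.mem_ctr_C e0 h0 e x
    · rintro e ⟨c, hc, hcy⟩
      rw [GG.mem_ctr_C] at hc
      obtain ⟨h1, h2⟩ := hH1 _ ⟨_, hc, by
        rw [← hHy.conj_iff c (S.cτ e0 (S.a (S.cF e0 h0 e)))⁻¹, inv_inv] at hcy
        exact hcy⟩
      rw [GG.ctr_a, GG.ctr_b]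
      exact ⟨hAb _ h1, hAb _ h2⟩
    · refine ⟨S.cφ e0 h0 (S.a e0), hAb _ haA, c0, ?_, hcy0⟩
      rw [GG.ctr_G_a]
      exact (le_sup_left : S.G (S.a e0) ≤ _) (S.Ca e0 hc0)

/-- the field `F` is finitely generated -/
theorem exists_SF (hfg : Group.FG Γ) (hfr : Frc (OO 2 ρ)) :
    ∃ SF : Finset F, IntermediateField.adjoin (ZMod 2) (SF : Set F) = ⊤ := by
  obtain ⟨SF, hSF⟩ := FrRoq.OO_fg (p := 2) ρ hfg
  refine ⟨SF, ?_⟩
  rw [eq_top_iff]
  intro z _
  have hle : ∀ a ∈ OO 2 ρ, a ∈ IntermediateField.adjoin (ZMod 2) (SF : Set F) := by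
    intro a ha
    rw [← hSF] at ha
    exact IntermediateField.algebra_adjoin_le_adjoin _ _ ha
  obtain ⟨a, ha, c, hc, hc0, hac⟩ := hfr z
  have h3 : z = a * c⁻¹ := by rw [← hac, mul_assoc, mul_inv_cancel₀ hc0, mul_one]
  rw [h3]
  exact mul_mem (hle a ha) (inv_mem (hle c hc))

/-- CASE B.  A real valuation which is semi-good on the vertex groups, not negative on the traces of the
cyclic edge groups, is not negative on the traces of all edge groups. -/
theorem caseB (hline : S_line) (h : LX ρ) (hfg : Group.FG Γ) (hfr : Frc (OO 2 ρ)) (hinj : Function.Injective ρ)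
    (hnc : ∃ y z : Γ, y * z ≠ z * y) (hT : ∀ g, (ρ g).1.trace = 0 → g = 1)
    (S : GG Γ) (hS : S.UP) (hfgV : ∀ v, (S.G v).FG) (hfgE : ∀ e, (S.C e).FG)
    (hne : ∀ e, S.C e ≠ ⊥) (hab : ∀ e, ∀ y ∈ S.C e, ∀ z ∈ S.C e, y * z = z * y)
    (y : RV F) (hy : ∀ v, ∀ g ∈ S.G v, g ≠ 1 → y.v (FrR.tr (ρ g)) ≤ 0)
    (hcyc : ∀ e, (∃ z, S.C e = Subgroup.zpowers z) → ∀ c ∈ S.C e, 0 ≤ y.v (FrR.tr (ρ c)))
    (e0 : S.E) (c0 : Γ) (hc0 : c0 ∈ S.C e0) (h0 : y.v (FrR.tr (ρ c0)) < 0) : False := by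
  classical
  -- the algebraic closure
  let Ω := AlgebraicClosure F
  haveI : CharP Ω 2 := charTwo_of_alg Ω
  haveI : CharP F 2 := charTwo_of_alg F
  obtain ⟨xv, hxv, hxa⟩ := FrP.exists_ext (F := F) (E := Ω) y.isV
  let x : RV Ω := ⟨xv, hxv⟩
  let i : F →+* Ω := algebraMap F Ω
  have hi : Function.Injective i := i.injective
  let r : Γ →* SpecialLinearGroup (Fin 2) Ω := bc i ρ
  have htr : ∀ g, FrR.tr (r g) = i (FrR.tr (ρ g)) := by
    intro g
    show i ((ρ g).1 0 0) + i ((ρ g).1 1 1) = i ((ρ g).1 0 0 + (ρ g).1 1 1)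
    rw [map_add]
  have hxtr : ∀ g, x.v (FrR.tr (r g)) = y.v (FrR.tr (ρ g)) := by
    intro g
    rw [htr]
    exact hxa _
  have hTr : ∀ g, FrR.tr (ρ g) = 0 → g = 1 := by
    intro g hg
    apply hT
    rw [Matrix.trace_fin_two]
    exact hg
  -- properties (S4), (S5)
  have hSG : SG (⟨fun _ => 0, ⟨rfl, fun _ _ _ _ => by simp, fun _ _ _ _ _ => by simp⟩⟩ : RV F)
      ρ.range := by
    have h2 : (2 : F) = 0 := CharTwo.two_eq_zero (R := F)
    have h3 : ∀ g ∈ ρ.range, g ≠ 1 → FrR.tr g ≠ 0 := by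
      rintro _ ⟨g, rfl⟩ hg h4
      apply hg
      rw [hTr g h4, map_one]
    refine ⟨fun g hg h1 => ?_, fun g hg h1 => ?_, fun g hg h1 => ?_⟩
    · rw [h2, sub_zero]; exact ⟨h3 g hg h1, le_rfl⟩
    · rw [h2, add_zero]; exact ⟨h3 g hg h1, le_rfl⟩
    · exact ⟨h3 g hg h1, le_rfl⟩
  have hne1 : ∀ a : Γ, a ≠ 1 → ρ a ≠ 1 := fun a ha h1 => ha (hinj (by rw [h1, map_one]))
  have hct : ∀ a b c : Γ, a ≠ 1 → a * b = b * a → a * c = c * a → b * c = c * b := by
    intro a b c ha hab hac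
    apply hinj
    rw [map_mul, map_mul]
    refine hSG.ct (a := ρ a) ⟨a, rfl⟩ (hne1 a ha) ?_ ?_
    · rw [← map_mul, hab, map_mul]
    · rw [← map_mul, hac, map_mul]
  have hcsa : ∀ a g : Γ, a ≠ 1 → a * (g * a * g⁻¹) = g * a * g⁻¹ * a → a * g = g * a := by
    intro a g ha hag
    apply hinj
    rw [map_mul, map_mul]
    refine hSG.csa (a := ρ a) (g := ρ g) ⟨a, rfl⟩ (hne1 a ha) ⟨g, rfl⟩ ?_
    have h1 := congrArg ρ hag
    simpa only [map_mul, map_inv] using h1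
  -- the context
  have hctx : Ctx S r x := by
    refine ⟨?_, hct, hfgV, hfgE, hne, hab, ?_, ?_, ?_, ?_⟩
    · intro g g' hgg
      apply hinj
      apply Subtype.ext
      ext a c
      have h1 := congrFun (congrFun (congrArg Subtype.val hgg) a) c
      exact hi h1
    · intro v g hg hg1
      refine ⟨?_, ?_⟩
      · rw [htr]
        intro h1
        exact hg1 (hTr g (hi (by rw [h1, map_zero])))
      · rw [hxtr]
        exact hy v g hg hg1
    · intro c hc
      exact exists_basis i hT c hc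
    · intro M hM
      exact FrRoq.comm_fg ρ hfg hT M hM
    · rintro e ⟨c, hc, hcv⟩ hz
      rw [hxtr] at hcv
      exact absurd hcv (not_lt.2 (hcyc e hz c hc))
  obtain ⟨kb, hkb⟩ := exists_kb hctx
  -- the LINE theorem at all nonabelian vertices
  have hL : ∀ v, ∃ (A₁ : Finset Ω) (F₁ E₁ : Finset ℝ), (∀ t ∈ F₁, 0 < t) ∧
      ∀ (L₀ : ℝ →+ ℚ), (∀ t ∈ F₁, 0 < L₀ t) → (∀ t ∈ E₁, t ∈ FrZ.Lam L₀) →
      ∀ (x' : RV Ω), (∀ a ∈ A₁, x'.v a = (L₀ (x.v a) : ℝ)) →
        (∀ (h : {h : HH S r x // pv h = v}), ∀ z ∈ eZ S (rp h.1).1,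
          x'.v (eg r (kb (rp h.1).1) z) = (L₀ (x.v (eg r (kb (rp h.1).1) z)) : ℝ)) ∧
        ∀ N : {h : HH S r x // pv h = v} → Subgroup Γ,
          (∀ h z, z ∈ N h ↔ z ∈ eZ S (rp h.1).1 ∧ x'.v (eg r (kb (rp h.1).1) z) = 0) →
          Nonempty (LineOut (S.G v) (fun h : {h : HH S r x // pv h = v} => eZ S (rp h.1).1) N
            (fun i : {p : S.E × Bool // eV S p = v ∧ ¬ HyE S r x p.1} => eC S i.1)) :=
    fun v => hline Γ Ω {h : HH S r x // pv h = v} {p : S.E × Bool // eV S p = v ∧ ¬ HyE S r x p.1}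
      r x (S.G v) _ _ _ (lineIn hctx hkb v)
  choose A₁ F₁ E₁ hF₁ hline' using hL
  -- generators of the edge groups
  have hgen : ∀ e, ∃ G : Finset Γ, Subgroup.closure (G : Set Γ) = S.C e := fun e => hfgE e
  choose G hG using hgen
  have hCe : ∀ e, ∀ c ∈ S.C e, c ∈ eC S (e, false) := by
    intro e c hc
    rw [mem_eC]
    show (1 : Γ) * c * 1⁻¹ ∈ S.C e
    rw [one_mul, inv_one, mul_one]
    exact hc
  have hDC : ∀ e, ∀ c ∈ S.C e, FrCB.Dg r (kb (e, false)) c := fun e c hc =>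
    hkb _ c (eC_le_eZ hctx _ (hCe e c hc))
  let B : Finset Ω := Finset.univ.biUnion fun e => (G e).image fun c => eg r (kb (e, false)) c
  have hB : ∀ e, ∀ c ∈ G e, eg r (kb (e, false)) c ∈ B := fun e c hc =>
    Finset.mem_biUnion.2 ⟨e, Finset.mem_univ _, Finset.mem_image_of_mem _ hc⟩
  let A : Finset Ω := (Finset.univ.biUnion A₁) ∪ B
  obtain ⟨SF, hSF⟩ := exists_SF hfg hfr
  obtain ⟨F0, hF0, happ⟩ := approx_alg (F := F) (Ω := Ω) SF hSF x A
  let FF : Finset ℝ := (F0 ∪ Finset.univ.biUnion F₁) ∪ (B.image fun t => |x.v t|).filter (0 < ·)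
  let EE : Finset ℝ := Finset.univ.biUnion E₁
  obtain ⟨L, hLF, hLE⟩ := FrZ.exists_L FF EE (by
    intro t ht
    rcases Finset.mem_union.1 ht with ht | ht
    · rcases Finset.mem_union.1 ht with ht | ht
      · exact hF0 t ht
      · obtain ⟨v, _, hv⟩ := Finset.mem_biUnion.1 ht
        exact hF₁ v t hv
    · exact (Finset.mem_filter.1 ht).2)
  obtain ⟨x', N, hN, hx'⟩ := happ L (fun t ht =>
    hLF t (Finset.mem_union_left _ (Finset.mem_union_left _ ht)))
  let L' : ℝ →+ ℚ := (AddMonoidHom.mulLeft (N : ℚ)).comp L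
  have hL' : ∀ t, L' t = (N : ℚ) * L t := fun t => rfl
  have hNq : (0 : ℚ) < N := by exact_mod_cast hN
  have hpos : ∀ t ∈ FF, 0 < L' t := fun t ht => by
    rw [hL']
    exact mul_pos hNq (hLF t ht)
  have hLam : ∀ t ∈ EE, t ∈ FrZ.Lam L' := by
    intro t ht
    obtain ⟨n, hn⟩ := hLE t ht
    refine ⟨N * n, ?_⟩
    rw [hL', hn]
    push_cast
    ring
  have hx'A : ∀ a ∈ A, x'.v a = (L' (x.v a) : ℝ) := fun a ha => hx' a ha
  -- the output at all nonabelian vertices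
  have hDh : ∀ h : HH S r x, ∀ z ∈ eZ S (rp h).1, FrCB.Dg r (kb (rp h).1) z := fun h => hkb _
  let Nn : HH S r x → Subgroup Γ := fun h => kerV r (kb (rp h).1) x' (eZ S (rp h).1) (hDh h)
  have hout : ∀ v, Nonempty (LineOut (S.G v)
      (fun h : {h : HH S r x // pv h = v} => eZ S (rp h.1).1) (fun h => Nn h.1)
      (fun i : {p : S.E × Bool // eV S p = v ∧ ¬ HyE S r x p.1} => eC S i.1)) := by
    intro v
    refine (hline' v L' (fun t ht => hpos t ?_) (fun t ht => hLam t ?_) x' (fun a ha =>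
      hx'A a ?_)).2 _ (fun h z => Iff.rfl)
    · exact Finset.mem_union_left _ (Finset.mem_union_right _
        (Finset.mem_biUnion.2 ⟨v, Finset.mem_univ _, ht⟩))
    · exact Finset.mem_biUnion.2 ⟨v, Finset.mem_univ _, ht⟩
    · exact Finset.mem_union_left _ (Finset.mem_biUnion.2 ⟨v, Finset.mem_univ _, ha⟩)
  let LO : LOs S r x Nn := fun v _ => Classical.choice (hout v)
  have hNle : ∀ h, Nn h ≤ eZ S (rp h).1 := fun h z hz => hz.1
  have hatt := exists_att hctx LO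
  choose o k hk ho hc hon using hatt
  let D : Star S := mkStar hctx LO hNle o k hk ho hc
  -- elliptic and hyperbolic edges for the new valuation
  have hell : ∀ e, ¬ HyE S r x e → ∀ c ∈ S.C e, ¬ HyG r x' c := by
    intro e he
    have h1 : ∀ c ∈ S.C e, x.v (eg r (kb (e, false)) c) = 0 := by
      intro c hce
      by_contra h2
      exact he ⟨c, hce, ((hDC e c hce).hy x).2 h2⟩
    have h2 : S.C e ≤ kerV r (kb (e, false)) x' (S.C e) (hDC e) := by
      conv_lhs => rw [← hG e]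
      rw [Subgroup.closure_le]
      intro c hcG
      have hce : c ∈ S.C e := by rw [← hG e]; exact Subgroup.subset_closure hcG
      refine ⟨hce, ?_⟩
      rw [hx'A _ (Finset.mem_union_right _ (hB e c hcG)), h1 c hce, map_zero, Rat.cast_zero]
    intro c hce h3
    exact ((hDC e c hce).hy x').1 h3 (h2 hce).2
  have hhyp : ∀ e, HyE S r x e → ∃ c ∈ S.C e, HyG r x' c := by
    rintro e ⟨c, hce, hcv⟩
    have h1 : ∃ d ∈ G e, x.v (eg r (kb (e, false)) d) ≠ 0 := by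
      by_contra hcon
      push Not at hcon
      have h2 : S.C e ≤ kerV r (kb (e, false)) x (S.C e) (hDC e) := by
        conv_lhs => rw [← hG e]
        rw [Subgroup.closure_le]
        intro d hd
        exact ⟨by rw [← hG e]; exact Subgroup.subset_closure hd, hcon d hd⟩
      exact ((hDC e c hce).hy x).1 hcv (h2 hce).2
    obtain ⟨d, hd, hdv⟩ := h1
    have hde : d ∈ S.C e := by rw [← hG e]; exact Subgroup.subset_closure hd
    refine ⟨d, hde, ((hDC e d hde).hy x').2 ?_⟩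
    rw [hx'A _ (Finset.mem_union_right _ (hB e d hd))]
    have h3 : 0 < L' |x.v (eg r (kb (e, false)) d)| := by
      apply hpos
      refine Finset.mem_union_right _ (Finset.mem_filter.2 ⟨Finset.mem_image_of_mem _ (hB e d hd),
        abs_pos.2 hdv⟩)
    intro h4
    have h5 : L' (x.v (eg r (kb (e, false)) d)) = 0 := by exact_mod_cast h4
    rcases abs_choice (x.v (eg r (kb (e, false)) d)) with h6 | h6
    · rw [h6, h5] at h3
      exact lt_irrefl _ h3
    · rw [h6, map_neg, h5, neg_zero] at h3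
      exact lt_irrefl _ h3
  -- `N h ≠ 1`
  have hNne : ∀ h : HH S r x, Nn h ≠ ⊥ := by
    intro h' hbot
    have hLI := lineIn hctx hkb (pv h')
    obtain ⟨z1, hz1, hz1v⟩ := hLI.hyp ⟨h', rfl⟩
    let LO' := LO (pv h') (pv_NA h')
    have hpow : ∀ z ∈ eZ S (rp h').1, ∃ n : ℤ, z = (LO'.t ⟨h', rfl⟩) ^ n := by
      intro z hz
      obtain ⟨n, hn⟩ := LO'.dec ⟨h', rfl⟩ z hz
      have h1 : z * (LO'.t ⟨h', rfl⟩) ^ n ∈ Nn h' := hn
      rw [hbot, Subgroup.mem_bot] at h1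
      refine ⟨-n, ?_⟩
      rw [zpow_neg]
      exact eq_inv_of_mul_eq_one_left h1
    have htZ : LO'.t ⟨h', rfl⟩ ∈ eZ S (rp h').1 := LO'.tZ ⟨h', rfl⟩
    have hDt := hDh h' _ htZ
    have htv : x.v (eg r (kb (rp h').1) (LO'.t ⟨h', rfl⟩)) ≠ 0 := by
      intro h1
      obtain ⟨n, hn⟩ := hpow z1 hz1
      apply hz1v
      show x.v (eg r (kb (rp h').1) z1) = 0
      rw [hn, hDt.v_zpow, h1, mul_zero]
    obtain ⟨z, hz, hz1, hzv⟩ := hLI.small ⟨h', rfl⟩ _ (abs_pos.2 htv)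
    obtain ⟨n, hn⟩ := hpow z hz
    have h1 : |x.v (eg r (kb (rp h').1) z)| < |x.v (eg r (kb (rp h').1) (LO'.t ⟨h', rfl⟩))| := hzv
    rw [hn, hDt.v_zpow, abs_mul] at h1
    have h2 : |(n : ℝ)| < 1 := by
      by_contra h3
      rw [not_lt] at h3
      have h4 := mul_le_mul_of_nonneg_right h3 (abs_nonneg (x.v (eg r (kb (rp h').1)
        (LO'.t ⟨h', rfl⟩))))
      rw [one_mul] at h4
      exact absurd h1 (not_lt.2 h4)
    have h3 : n = 0 := by
      have h4 : |n| < 1 := by exact_mod_cast h2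
      rw [abs_lt] at h4
      omega
    rw [h3, zpow_zero] at hn
    exact hz1 hn
  -- vertex groups where hyperbolic ends are attached are commutative
  have hattAb : ∀ p : S.E × Bool, HyE S r x p.1 → AbV D.gg (D.att (eV S p) (o p)) := by
    intro p hp
    rcases hop : o p with _ | h'
    · have hv : ¬ S.NA (eV S p) := fun hv => hon p hv hp hop
      intro a ha c hc
      have ha' : a ∈ AA LO (eV S p) := ha
      have hc' : c ∈ AA LO (eV S p) := hc
      rw [AA_neg LO hv] at ha' hc'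
      unfold GG.NA at hv
      rw [not_not] at hv
      exact hv a ha' c hc'
    · intro a ha c hc
      exact eZ_ab hctx _ a ha c hc
  refine ctrb h hinj hnc hct hcsa (hyP hctx x') (Nat.card D.gg.E) D.gg rfl (D.up hS) ?_ ?_ ?_ ?_ ?_
  · rintro (v | h')
    · show (AA LO v).FG
      by_cases hv : S.NA v
      · rw [AA_pos LO hv]
        exact (LO v hv).fg
      · rw [AA_neg LO hv]
        exact hfgV v
    · exact hctx.cfg _ (eZ_ab hctx _)
  · rintro (e | h')
    · refine fg_of_equiv (hfgE e) (k (e, false))⁻¹ fun z => ?_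
      rw [inv_inv]
      rfl
    · have h1 : (Nn h').FG := hctx.cfg _ fun a ha c hc =>
        eZ_ab hctx _ a (hNle h' ha) c (hNle h' hc)
      refine fg_of_equiv h1 (D.g h') fun z => ?_
      show (D.g h')⁻¹ * z * (D.g h')⁻¹⁻¹ ∈ Nn h' ↔ _
      rw [inv_inv]
  · rintro (e | h')
    · refine ne_bot_of_equiv (hne e) (k (e, false))⁻¹ fun z => ?_
      rw [inv_inv]
      rfl
    · refine ne_bot_of_equiv (hNne h') (D.g h') fun z => ?_
      show (D.g h')⁻¹ * z * (D.g h')⁻¹⁻¹ ∈ Nn h' ↔ _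
      rw [inv_inv]
  · rintro (e | h') ⟨c, hcC, hcy⟩
    · have hcC' : k (e, false) * c * (k (e, false))⁻¹ ∈ S.C e := hcC
      have hey : HyE S r x e := by
        by_contra he
        apply hell e he _ hcC'
        exact (hyP hctx x').conj _ _ hcy
      exact ⟨hattAb (e, false) hey, hattAb (e, true) hey⟩
    · exfalso
      have hcC' : (D.g h')⁻¹ * c * (D.g h')⁻¹⁻¹ ∈ Nn h' := hcC
      have h1 := (hyP hctx x').conj _ (D.g h')⁻¹ hcy
      exact ((hDh h' _ hcC'.1).hy x').1 h1 hcC'.2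
  · have hey : HyE S r x e0 := ⟨c0, hc0, by rw [hxtr]; exact h0⟩
    obtain ⟨c, hcC, hcy⟩ := hhyp e0 hey
    refine ⟨D.att (S.a e0) (o (e0, false)), hattAb (e0, false) hey,
      (k (e0, false))⁻¹ * c * k (e0, false), ?_, ?_⟩
    · have h1 : (k (e0, false))⁻¹ * c * k (e0, false) ∈ D.gg.C (Sum.inl e0) := by
        show k (e0, false) * ((k (e0, false))⁻¹ * c * k (e0, false)) * (k (e0, false))⁻¹ ∈ S.C e0
        have h2 : k (e0, false) * ((k (e0, false))⁻¹ * c * k (e0, false)) * (k (e0, false))⁻¹ =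
          c := by group
        rw [h2]
        exact hcC
      exact D.gg.Ca (Sum.inl e0) h1
    · have h1 := (hyP hctx x').conj c (k (e0, false))⁻¹ hcy
      rw [inv_inv] at h1
      exact h1

/-- CASE B.  A real valuation which is semi-good on the vertex groups and not negative on the traces of
the cyclic edge groups is not negative on the traces of all edge groups. -/
theorem case_b (h : LX ρ) (hfg : Group.FG Γ) (hfr : Frc (OO 2 ρ))
    (hinj : Function.Injective ρ) (hnc : ∃ y z : Γ, y * z ≠ z * y)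
    (hT : ∀ g, (ρ g).1.trace = 0 → g = 1) {S : GG Γ} (hS : S.Adm)
    (y : RV F) (hy : ∀ v, ∀ g ∈ S.G v, g ≠ 1 → y.v (FrR.tr (ρ g)) ≤ 0)
    (hcyc : ∀ e, (∃ z, S.C e = Subgroup.zpowers z) → ∀ c ∈ S.C e, 0 ≤ y.v (FrR.tr (ρ c)))
    (e : S.E) (c : Γ) (hc : c ∈ S.C e) : 0 ≤ y.v (FrR.tr (ρ c)) := by
  by_contra h0
  rw [not_le] at h0
  exact caseB line_thm h hfg hfr hinj hnc hT S hS.toUP hS.fgV hS.fgE hS.ne hS.ab y hy hcyc e c hc h0

end Main

end Pool.Agent.SuS
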