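import Pool.Agent.Lib.MP_305fdd_al.Su.S.Bend

/-!
# MP_305fdd_al, closed surface groups, S-machine: the measure drops

The theorems of `Fr/S/{Drop, DropH, StepA}` with `Uv` replaced by `Wv`.
-/

set_option autoImplicit false

namespace Pool.Agent.SuS

open Matrix (SpecialLinearGroup)
open Pool.Agent.FrN Pool.Agent.FrAsm Pool.Agent.FrS

section

variable {Γ F : Type} [Group Γ] [Field F] [Algebra (ZMod 2) F]
  {ρ : Γ →* SpecialLinearGroup (Fin 2) F}

/-- the inequality behind the drop of the measure in the amalgam case -/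
theorem drop_aux (hU : Wv Γ F ρ) (hT : ∀ g, tr ρ g = 0 → g = 1) {S : GG Γ} (hS : S.UP)
    (hne : ∀ e, S.C e ≠ ⊥) (hab : ∀ e, ∀ x ∈ S.C e, ∀ y ∈ S.C e, x * y = y * x) {v : S.V}
    (d : S.RefA v) (hD : d.D ≠ ⊥) (hDab : ∀ x ∈ d.D, ∀ y ∈ d.D, x * y = y * x) :
    er (trs ρ (d.A' : Set Γ)) + er (dv ρ (S.refA v d) none ∪ trs ρ (d.A : Set Γ)) ≤
        er (dv ρ (S.refA v d) none) + er (trs ρ (d.A' : Set Γ) ∪ trs ρ (d.A : Set Γ)) ∧
      er (trs ρ (d.A : Set Γ)) + er (dv ρ (S.refA v d) (some v) ∪ dv ρ (S.refA v d) none) ≤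
        er (dv ρ (S.refA v d) (some v)) + er (dv ρ (S.refA v d) none ∪ trs ρ (d.A : Set Γ)) := by
  have hS' := GG.refA_up hS d
  have hne' := refA_ne hne d hD
  have hab' := refA_ab hab d hDab
  have hGv : (S.refA v d).G (some v) = d.A := if_pos rfl
  constructor
  · have h := move_vertex hU hT hS' hne' hab' none (d.A : Set Γ) (by
      intro z hz
      left
      refine ⟨some v, Option.some_ne_none _, ?_⟩
      rw [hGv]
      exact hz)
    exact h
  · have h := move_vertex hU hT hS' hne' hab' (some v)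
      {c | ∃ e, ((S.refA v d).a e = none ∨ (S.refA v d).b e = none) ∧ c ∈ (S.refA v d).C e} (by
      rintro z ⟨e, he, hz⟩
      by_cases hae : (S.refA v d).a e = some v
      · right
        exact ⟨e, Or.inl hae, hz⟩
      · left
        exact ⟨_, hae, (S.refA v d).Ca e hz⟩)
    rw [hGv] at h
    rw [Set.union_comm (dv ρ (S.refA v d) none)]
    exact h

/-- all inequalities for the amalgam refinement -/
theorem drop_ineq (hU : Wv Γ F ρ) (hT : ∀ g, tr ρ g = 0 → g = 1) {S : GG Γ} (hS : S.UP)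
    (hne : ∀ e, S.C e ≠ ⊥) (hab : ∀ e, ∀ x ∈ S.C e, ∀ y ∈ S.C e, x * y = y * x) {v : S.V}
    (d : S.RefA v) (hD : d.D ≠ ⊥) (hDab : ∀ x ∈ d.D, ∀ y ∈ d.D, x * y = y * x)
    (hfin : er (Set.univ : Set F) ≠ ⊤)
    (hA : (S.refA v d).NA (some v)) (hA' : (S.refA v d).NA none) :
    dl ρ (S.refA v d) (some v) + dl ρ (S.refA v d) none + 1 ≤
      (er (trs ρ (S.G v : Set Γ))).toNat - (er (dv ρ S v)).toNat := by
  have hS' := GG.refA_up hS d
  have hne' := refA_ne hne d hD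
  have hab' := refA_ab hab d hDab
  have hGv : (S.refA v d).G (some v) = d.A := if_pos rfl
  have hGn : (S.refA v d).G none = d.A' := rfl
  obtain ⟨h1, h2⟩ := drop_aux (ρ := ρ) hU hT hS hne hab d hD hDab
  have hAv : d.A ≤ S.G v := by rw [d.am.sup]; exact le_sup_left
  have hA'v : d.A' ≤ S.G v := by rw [d.am.sup]; exact le_sup_right
  obtain ⟨x, hx, y, hy, hb⟩ := bend_edge (ρ := ρ) hU hT hS' (none : Option S.E) (hne' none)
    (hab' none) hA hA'
  have hb1 := hb ((d.A' : Set Γ) ∪ d.A) (by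
    rintro z (hz | hz)
    · exact ⟨none, hz⟩
    · refine ⟨some v, ?_⟩
      rw [hGv]
      exact hz)
  rw [dl_na hA, dl_na hA', hGv, hGn]
  have hx' : x ∈ d.A := by
    have h := hx
    change x ∈ (S.refA v d).G (some v) at h
    rwa [hGv] at h
  have hy' : y ∈ d.A' := hy
  have hsub1 : dv ρ (S.refA v d) none ⊆ trs ρ (d.A' : Set Γ) := dv_sub (S.refA v d) none
  have hsub2 : dv ρ (S.refA v d) (some v) ⊆ trs ρ (d.A : Set Γ) := by
    have h := dv_sub (ρ := ρ) (S.refA v d) (some v)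
    rwa [hGv] at h
  refine arith1 (t := er (dv ρ (S.refA v d) none ∪ trs ρ (d.A : Set Γ)))
    (q := er (dv ρ (S.refA v d) (some v) ∪ dv ρ (S.refA v d) none))
    (u := er (trs ρ (d.A' : Set Γ) ∪ trs ρ (d.A : Set Γ)))
    (ne_top_of_le_ne_top hfin (er_mono (Set.subset_univ _))) (er_mono hsub2) (er_mono hsub1) ?_
    (er_mono (dv_refA_le d)) ?_ ?_ (er_mono Set.subset_union_right) (er_mono Set.subset_union_left)
    h1 h2
  · have h3 : trs ρ ((d.A' : Set Γ) ∪ d.A) = trs ρ (d.A' : Set Γ) ∪ trs ρ (d.A : Set Γ) :=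
      Set.image_union _ _ _
    rw [h3] at hb1
    refine le_trans hb1 (er_mono (Set.image_mono ?_))
    rintro z (rfl | hz | hz)
    · have h4 : (S.refA v d).s (none : Option S.E) = 1 := rfl
      change x * ((S.refA v d).s (none : Option S.E) * y * ((S.refA v d).s
        (none : Option S.E))⁻¹) ∈ S.G v
      rw [h4, one_mul, inv_one, mul_one]
      exact mul_mem (hAv hx') (hA'v hy')
    · exact hA'v hz
    · exact hAv hz
  · refine er_mono ?_
    rintro z (hz | hz)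
    · exact Or.inr (hsub2 hz)
    · exact Or.inl hz
  · refine er_mono ?_
    rintro z (hz | hz)
    · exact Or.inl (hsub1 hz)
    · exact Or.inr hz

/-- D DROPS, case (a): both groups are non-abelian. -/
theorem drop_A (hU : Wv Γ F ρ) (hT : ∀ g, tr ρ g = 0 → g = 1) {S : GG Γ} (hS : S.UP)
    (hne : ∀ e, S.C e ≠ ⊥) (hab : ∀ e, ∀ x ∈ S.C e, ∀ y ∈ S.C e, x * y = y * x) {v : S.V}
    (hv : S.NA v) (d : S.RefA v) (hD : d.D ≠ ⊥) (hDab : ∀ x ∈ d.D, ∀ y ∈ d.D, x * y = y * x)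
    (hfin : er (Set.univ : Set F) ≠ ⊤)
    (hA : (S.refA v d).NA (some v)) (hA' : (S.refA v d).NA none) :
    DD ρ (S.refA v d) < DD ρ S := by
  have h1 := drop_ineq (ρ := ρ) hU hT hS hne hab d hD hDab hfin hA hA'
  rw [← dl_na hv] at h1
  have h2 := DD_refA (ρ := ρ) d
  omega

/-- D DROPS, case (c): the second group is abelian and contains an element whose trace is transcendental
over the edge traces at `v`. -/
theorem drop_M (hU : Wv Γ F ρ) (hT : ∀ g, tr ρ g = 0 → g = 1) {S : GG Γ} (hS : S.UP)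
    (hne : ∀ e, S.C e ≠ ⊥) (hab : ∀ e, ∀ x ∈ S.C e, ∀ y ∈ S.C e, x * y = y * x) {v : S.V}
    (hv : S.NA v) (d : S.RefA v) (hD : d.D ≠ ⊥) (hDab : ∀ x ∈ d.D, ∀ y ∈ d.D, x * y = y * x)
    (hfin : er (Set.univ : Set F) ≠ ⊤) (hA' : ¬ (S.refA v d).NA none)
    {b : Γ} (hb : b ∈ d.A') (hbt : ¬ IsAlgebraic (Algebra.adjoin (ZMod 2) (dv ρ S v)) (tr ρ b)) :
    DD ρ (S.refA v d) < DD ρ S := by
  have hGv : (S.refA v d).G (some v) = d.A := if_pos rfl
  obtain ⟨h1, h2⟩ := drop_aux (ρ := ρ) hU hT hS hne hab d hD hDab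
  have hAv : d.A ≤ S.G v := by rw [d.am.sup]; exact le_sup_left
  have hA'v : d.A' ≤ S.G v := by rw [d.am.sup]; exact le_sup_right
  have hsub1 : dv ρ (S.refA v d) none ⊆ trs ρ (d.A' : Set Γ) := dv_sub (S.refA v d) none
  have hsub2 : dv ρ (S.refA v d) (some v) ⊆ trs ρ (d.A : Set Γ) := by
    have h := dv_sub (ρ := ρ) (S.refA v d) (some v)
    rwa [hGv] at h
  -- the transcendental element
  have h3 : er (insert (tr ρ b) (dv ρ S v)) = er (dv ρ S v) + 1 := by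
    apply Matroid.eRk_insert_eq_add_one
    refine ⟨Set.mem_univ _, ?_⟩
    rw [AlgebraicIndependent.matroid_closure_eq]
    exact hbt
  have h4 : er (dv ρ S v) + 1 ≤
      er (trs ρ (d.A' : Set Γ) ∪ (dv ρ (S.refA v d) (some v) ∪ dv ρ (S.refA v d) none)) := by
    rw [← h3]
    refine er_mono ?_
    rintro z (rfl | hz)
    · exact Or.inl ⟨b, hb, rfl⟩
    · exact Or.inr (dv_refA_le d hz)
  have h5 := er_submod' (Z := dv ρ (S.refA v d) none) hsub1
    (Set.subset_union_right (s := dv ρ (S.refA v d) (some v)))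
  have h6 : er (trs ρ (d.A' : Set Γ) ∪ trs ρ (d.A : Set Γ)) ≤ er (trs ρ (S.G v : Set Γ)) := by
    refine er_mono ?_
    rintro z (⟨x, hx, rfl⟩ | ⟨x, hx, rfl⟩)
    · exact ⟨x, hA'v hx, rfl⟩
    · exact ⟨x, hAv hx, rfl⟩
  have h7 := dl_le (ρ := ρ) (S.refA v d) (some v)
  rw [hGv] at h7
  have h8 := DD_refA (ρ := ρ) d
  rw [dl_ab hA', dl_na hv] at h8
  have hle : ∀ X : Set F, ∃ n : ℕ, er X = n := fun X =>
    ENat.ne_top_iff_exists.1 (ne_top_of_le_ne_top hfin (er_mono (Set.subset_univ X))) |>.imp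
      fun n hn => hn.symm
  have hz1 := er_mono hsub1
  have hz2 := er_mono hsub2
  obtain ⟨n1, e1⟩ := hle (trs ρ (d.A' : Set Γ))
  obtain ⟨n2, e2⟩ := hle (dv ρ (S.refA v d) none ∪ trs ρ (d.A : Set Γ))
  obtain ⟨n3, e3⟩ := hle (dv ρ (S.refA v d) none)
  obtain ⟨n4, e4⟩ := hle (trs ρ (d.A' : Set Γ) ∪ trs ρ (d.A : Set Γ))
  obtain ⟨n5, e5⟩ := hle (trs ρ (d.A : Set Γ))
  obtain ⟨n6, e6⟩ := hle (dv ρ (S.refA v d) (some v) ∪ dv ρ (S.refA v d) none)
  obtain ⟨n7, e7⟩ := hle (dv ρ (S.refA v d) (some v))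
  obtain ⟨n8, e8⟩ := hle (dv ρ S v)
  obtain ⟨n9, e9⟩ := hle (trs ρ (d.A' : Set Γ) ∪ (dv ρ (S.refA v d) (some v) ∪
    dv ρ (S.refA v d) none))
  obtain ⟨n10, e10⟩ := hle (trs ρ (S.G v : Set Γ))
  rw [e1, e2, e3, e4] at h1
  rw [e5, e6, e7, e2] at h2
  rw [e8, e9] at h4
  rw [e3, e9, e1, e6] at h5
  rw [e4, e10] at h6
  rw [e5, e7] at h7
  rw [e10, e8] at h8
  rw [e3, e1] at hz1
  rw [e7, e5] at hz2
  simp only [ENat.toNat_natCast] at h7 h8
  norm_cast at h1 h2 h4 h5 h6 hz1 hz2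
  omega

/-- D DROPS, case (b): HNN extension. -/
theorem drop_H (hU : Wv Γ F ρ) (hT : ∀ g, tr ρ g = 0 → g = 1) {S : GG Γ} (hS : S.UP) {v : S.V}
    (hv : S.NA v) (d : S.RefH v) (hD : d.D ≠ ⊥) (hDab : ∀ x ∈ d.D, ∀ y ∈ d.D, x * y = y * x)
    (hfin : er (Set.univ : Set F) ≠ ⊤) :
    DD ρ (S.refH v d) < DD ρ S := by
  have hTor := tor_of hU.inj hT
  have hA := refH_na hTor hv d hD
  have hGv : (S.refH v d).G v = d.A := if_pos rfl
  have hS' := GG.refH_up hS d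
  have hAv : d.A ≤ S.G v := by rw [d.hn.sup]; exact le_sup_left
  have hsv : d.s ∈ S.G v := by
    rw [d.hn.sup]
    exact (le_sup_right : _ ≤ d.A ⊔ Subgroup.zpowers d.s) (Subgroup.mem_zpowers _)
  obtain ⟨x, hx, hb⟩ := bend_loop (ρ := ρ) hU hT hS' (none : Option S.E) hD hDab rfl hA
  have hb1 := hb (d.A : Set Γ) (fun z hz => ⟨v, by rw [hGv]; exact hz⟩)
  have hx' : x ∈ d.A := by
    have h := hx
    change x ∈ (S.refH v d).G v at h
    rwa [hGv] at h
  have h3 : er (trs ρ (insert (x * (S.refH v d).s (none : Option S.E)) (d.A : Set Γ))) ≤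
      er (trs ρ (S.G v : Set Γ)) := by
    refine er_mono (Set.image_mono ?_)
    rintro z (rfl | hz)
    · exact mul_mem (hAv hx') hsv
    · exact hAv hz
  have h4 : er (dv ρ S v) ≤ er (dv ρ (S.refH v d) v) := er_mono (dv_refH_le d v)
  have h5 : er (dv ρ (S.refH v d) v) ≤ er (trs ρ (d.A : Set Γ)) := by
    have h := dv_sub (ρ := ρ) (S.refH v d) v
    rw [hGv] at h
    exact er_mono h
  have h6 := hb1.trans h3
  have h7 := DD_refH (ρ := ρ) d
  rw [dl_na hv, dl_na hA, hGv] at h7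
  have hle : ∀ X : Set F, ∃ n : ℕ, er X = n := fun X =>
    ENat.ne_top_iff_exists.1 (ne_top_of_le_ne_top hfin (er_mono (Set.subset_univ X))) |>.imp
      fun n hn => hn.symm
  obtain ⟨n1, e1⟩ := hle (trs ρ (d.A : Set Γ))
  obtain ⟨n2, e2⟩ := hle (trs ρ (S.G v : Set Γ))
  obtain ⟨n3, e3⟩ := hle (dv ρ S v)
  obtain ⟨n4, e4⟩ := hle (dv ρ (S.refH v d) v)
  rw [e1, e2] at h6
  rw [e3, e4] at h4
  rw [e4, e1] at h5
  rw [e1, e2, e3, e4] at h7
  simp only [ENat.toNat_natCast] at h7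
  norm_cast at h4 h5 h6
  omega

/-- THE STEP: a relative splitting of a non-abelian vertex group decreases the measure. -/
theorem step (hU : Wv Γ F ρ) (hT : ∀ g, tr ρ g = 0 → g = 1) (hfin : er (Set.univ : Set F) ≠ ⊤)
    (hFI : FI Γ) {S : GG Γ} (hS : S.Adm) {v : S.V} (hv : S.NA v)
    (h : FrV.Out ρ (S.G v) (S.inc v)) : ∃ S' : GG Γ, S'.Adm ∧ DD ρ S' < DD ρ S := by
  rcases h with ⟨A, A', D, ham, hA, hA', hD, hDc, hAD, hAD', hI, hc, hc'⟩ |
    ⟨A, D, s, hn, hA, hD, hDc, hI⟩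
  · -- amalgam
    have key : ∀ (A A' D : Subgroup Γ) (_ : IsAm (S.G v) A A' D) (_ : A.FG) (_ : A'.FG)
        (_ : D.FG) (_ : FrV.Cm D) (_ : A ≠ D) (_ : A' ≠ D)
        (_ : ∀ i, ∃ g ∈ S.G v, (∀ c ∈ S.inc v i, g⁻¹ * c * g ∈ A) ∨
          (∀ c ∈ S.inc v i, g⁻¹ * c * g ∈ A'))
        (_ : D ≠ ⊥ → FrV.Cm A' → ∃ b ∈ A', ¬ IsAlgebraic (Algebra.adjoin (ZMod 2)
          (trs ρ {c | ∃ i, c ∈ S.inc v i})) (tr ρ b))
        (_ : ¬ FrV.Cm A ∨ FrV.Cm A'), ∃ S' : GG Γ, S'.Adm ∧ DD ρ S' < DD ρ S := by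
      intro A A' D ham hA hA' hD hDc hAD hAD' hI hc' hor
      obtain ⟨d, rfl, rfl, rfl⟩ := S.exists_refA v ham hI
      have hUP := GG.refA_up hS.toUP d
      have hGv : (S.refA v d).G (some v) = d.A := if_pos rfl
      have hD1 : d.D ≠ ⊥ := by
        intro h0
        refine GG.UP.ne_bot hUP hFI (none : Option S.E) ?_ ?_ h0
        · change (S.refA v d).G (some v) ≠ ⊥
          rw [hGv, ← h0]
          exact hAD
        · change d.A' ≠ ⊥
          rw [← h0]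
          exact hAD'
      refine ⟨S.refA v d, GG.refA_adm hS d hA hA' hD hD1 hDc hAD hAD', ?_⟩
      by_cases hna' : FrV.Cm d.A'
      · obtain ⟨b, hb, hbt⟩ := hc' hD1 hna'
        refine drop_M hU hT hS.toUP hS.ne hS.ab hv d hD1 hDc hfin (fun h' => h' hna') hb ?_
        exact not_alg_mono (dv_inc S v) hbt
      · have hna : ¬ FrV.Cm d.A := hor.resolve_right hna'
        refine drop_A hU hT hS.toUP hS.ne hS.ab hv d hD1 hDc hfin ?_ hna'
        intro h'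
        rw [hGv] at h'
        exact hna h'
    by_cases h1 : FrV.Cm A
    · refine key A' A D ham.symm hA' hA hD hDc hAD' hAD ?_ hc (Or.inr h1)
      intro i
      obtain ⟨g, hg, h2⟩ := hI i
      exact ⟨g, hg, h2.symm⟩
    · exact key A A' D ham hA hA' hD hDc hAD hAD' hI hc' (Or.inl h1)
  · obtain ⟨d, rfl, rfl, rfl⟩ := S.exists_refH v hn hI
    have hUP := GG.refH_up hS.toUP d
    have hGv : (S.refH v d).G v = d.A := if_pos rfl
    have hA1 : d.A ≠ ⊥ := by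
      intro h0
      apply hv
      have h1 := d.hn.sup
      rw [h0, bot_sup_eq] at h1
      rw [h1]
      intro x hx y hy
      obtain ⟨m, rfl⟩ := Subgroup.mem_zpowers_iff.1 hx
      obtain ⟨n, rfl⟩ := Subgroup.mem_zpowers_iff.1 hy
      rw [← zpow_add, ← zpow_add, add_comm]
    have hD1 : d.D ≠ ⊥ := by
      intro h0
      refine GG.UP.ne_bot hUP hFI (none : Option S.E) ?_ ?_ h0
      · change (S.refH v d).G v ≠ ⊥
        rw [hGv]
        exact hA1
      · change (S.refH v d).G v ≠ ⊥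
        rw [hGv]
        exact hA1
    exact ⟨S.refH v d, GG.refH_adm hS d hA hD hD1 hDc,
      drop_H hU hT hS.toUP hv d hD1 hDc hfin⟩

end

end Pool.Agent.SuS
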